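import Pool.Agent.helper66.SL.SpecA

/-!
# Simplicial oriented matroids (MP_ad2b66_co): rows of block D (rank three, lines with at most three
elements)

Paper proof: /team-store/MP_ad2b66_SL_helper66.md, section 3. `vertex` = covector of corank `2`, `double` =
`Vx L 2`, `triple` = `Vx L 3` (by SZZ every vertex is double or triple), `star(p)` = topes `T` with `Le p T`,
`z(p)` = zero set. In rank three every tope has exactly three walls (`R3.rk` with the covector `0`).
Negatives: `fun e => -p e`.
-/

set_option autoImplicit false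

namespace Pool.Agent.helper66.SL

open Pool.Agent.helper52.FC

/-- TRI (short-medium). Topes are triangles. Proof: the three walls are `i, j, k` (`R3.rk`, `Le 0 T`);
XJW for `{j, k}`, `{i, k}`, `{i, j}` gives `p, q, r`; a covector `s` of corank `2` below `T` has exactly two zeros
among the walls, so it is one of them by XUQ. -/
def TRI : Prop := ∀ (E : Type) [Finite E] (L : Set (E → SignType)), R3 L → ∀ T, IsTope L T →
  ∃ (i j k : E) (p q r : E → SignType), i ≠ j ∧ i ≠ k ∧ j ≠ k ∧
    (∀ g, Wall L T g ↔ g = i ∨ g = j ∨ g = k) ∧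
    Cork L p 2 ∧ Cork L q 2 ∧ Cork L r 2 ∧ Le p T ∧ Le q T ∧ Le r T ∧
    p i ≠ 0 ∧ p j = 0 ∧ p k = 0 ∧ q i = 0 ∧ q j ≠ 0 ∧ q k = 0 ∧ r i = 0 ∧ r j = 0 ∧ r k ≠ 0 ∧
    ∀ s, Cork L s 2 → Le s T → s = p ∨ s = q ∨ s = r

/-- PEX (short-medium). Two elements have a common vertex. Proof: let `S` be a tope with wall `x`
(`exists_diff`), `R` the tope which is `-S g` for `g ≠ x` and `S x` at `x`: `fz S x` is in `L` (WFZ), so is
its negative `F`, `R = cmp F S`; `x` is a wall of `R` (WFZ). `R x = S x`, `R y = -S y`. If no vertex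
vanishes at `x` and `y`, CHN for `e = x` with `Q S' : S' y = S y` gives `R y = S y`: in a step
`S'`, `S''` are in the star of `Z`, `Z x = 0`, so `Z y ≠ 0` and `S' y = Z y = S'' y`. Contradiction. -/
def PEX : Prop := ∀ (E : Type) [Finite E] (L : Set (E → SignType)), R3 L → ∀ x y, x ≠ y →
  ∃ p, Cork L p 2 ∧ p x = 0 ∧ p y = 0

/-- PUN (medium). Two elements have at most one common vertex up to sign. Proof: first, for a vertex `p`
with `p x = p y = 0`, `x ≠ y`: `x`, `y` are the two walls in `z(p)` of some tope of the star (SZZ if `p`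
is double; if `z(p) = {x, y, c}`: take any tope of the star, apply PAT once or twice), so by CLO
`z(p) = {g | Cl2 L x y g} =: G`, the same for `q`. Suppose that `q ≠ p`, `q ≠ -p`. `p`, `q` are zero exactly
on `G`, so there are `e`, `e'` not in `G` with `p e = -q e`, `p e' = q e'`. Eliminate `e`: `Z` in `L`, `Z e = 0`,
`Z = 0` on `G`, `Z e' ≠ 0`. Let `R = cmp Z T0` be a tope above `Z`, `J` the walls of `R` at which `Z` is zero.
`J` is not the set of all three walls (otherwise `Z = 0` by XUQ). `|J| = 2`: `Z` is a vertex (CRK) with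
`Z x = Z y = 0`, so `z(Z) = G`, but `Z e = 0`. `|J| ≤ 1`: by XUQ `Z = R` or `Z = fz R g`, but `Z` is zero at
`x` and `y`. -/
def PUN : Prop := ∀ (E : Type) [Finite E] (L : Set (E → SignType)), R3 L → ∀ p q, Cork L p 2 →
  Cork L q 2 → ∀ x y, x ≠ y → p x = 0 → p y = 0 → q x = 0 → q y = 0 → q = p ∨ q = fun e => -p e

/-- STC (short-medium). Size of the star of a vertex. Proof: `z(p) = {a, b}`: all `g` in `z(p)` are
walls of all topes of the star (SZZ), so the star is `T, fl T a, fl T b, fl (fl T a) b` (a tope of the star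
is `p` off `z(p)`). `z(p) = {a, b, c}`, `T` in the star with walls `a`, `b` (not `c`): the star consists of
`T, fl T a, fl T b, fl (fl T a) c, fl (fl T b) c` (PAT) and `cmp p (-T)`; not `fl T c` (`c` is no wall) and
not its opposite `fl (fl T a) b`. -/
def STC : Prop := ∀ (E : Type) [Finite E] (L : Set (E → SignType)), R3 L → ∀ m p, m = 2 ∨ m = 3 →
  Vx L m p → {T | IsTope L T ∧ Le p T}.ncard = 2 * m

/-- EUL (medium-long). Euler: topes + vertices = edges + 2. Proof: fix a tope `B`. For `X` in `L` put
`X' = cmp X B`, a tope, and `J(X)` = the walls `e` of `X'` with `X e = 0`; at these `X' e = B e`. So `X ->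
(X', J(X))` maps `L` into the pairs `(T, J)`, `T` a tope, `J` a subset of
`W(T) = {e | Wall L T e ∧ T e = B e}`. It is a bijection: injective by XUQ; surjective: for `(T, J)`
take `X` from XJW; `T` and `cmp X B` are in the star of `X`; if they differ, GEO gives a wall `e` of `T` with
`T e ≠ (cmp X B) e`, so `X e = 0`, `e` is in `J`, `T e = B e = (cmp X B) e`: contradiction. So the sum of
`(-1)^|J(X)|` over `L` is the sum over the topes `T` of `Σ_{J ⊆ W(T)} (-1)^|J|`, which is the number of
topes with `W(T)` empty (`Finset.sum_powerset_neg_one_pow_card`). `W(T)` is empty only for `T = -B`: otherwise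
GEO for `T`, `-B` gives a wall with `T e ≠ -B e`, `T e = B e`. So the sum is `1`. By CRK `|J(X)|` is the
corank: `0` for the topes, `1` for the edges, `2` for the vertices, `3` only for `X = 0` (XUQ). So
topes - edges + vertices - 1 = 1. Vertices are double or triple (SZZ). -/
def EUL : Prop := ∀ (E : Type) [Finite E] (L : Set (E → SignType)), R3 L →
  {T | IsTope L T}.ncard + ({p | Vx L 2 p}.ncard + {p | Vx L 3 p}.ncard) = {X | Cork L X 1}.ncard + 2

/-- IN1 (short-medium). Proof: there are `3 t` pairs (tope `T`, wall `e`). `(T, e) -> fz T e` maps onto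
the covectors of corank `1`: `fz T e` is in `L` (WFZ), has the single zero `e`, so its corank is `1` (CRK);
if `X` has corank `1`, a tope `T` above `X` (`cmp X T0`) has exactly one wall `e` with `X e = 0`, and
`X = fz T e` by XUQ. The fibre of `X`, `z(X) = {e}`, is `(T, e), (fl T e, e)`. -/
def IN1 : Prop := ∀ (E : Type) [Finite E] (L : Set (E → SignType)), R3 L →
  3 * {T | IsTope L T}.ncard = 2 * {X | Cork L X 1}.ncard

/-- IN2 (short-medium). Proof: pairs (tope `T`, vertex `p` below `T`): `3 t` by TRI; `4` for every double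
and `6` for every triple vertex by STC; SZZ. -/
def IN2 : Prop := ∀ (E : Type) [Finite E] (L : Set (E → SignType)), R3 L →
  3 * {T | IsTope L T}.ncard = 4 * {p | Vx L 2 p}.ncard + 6 * {p | Vx L 3 p}.ncard

/-- CIE (short-medium). Proof: count pairs `(x, p)`, `x ≠ e`, `p` a vertex with `p e = p x = 0`. For
every `x` there are exactly two such `p`: PEX, PUN (`p ≠ -p` since `p ≠ 0`: by corank `2` of `p`
and the third wall of a tope above). A double vertex on `e` has one such `x`, a triple one has two. -/
def CIE : Prop := ∀ (E : Type) [Finite E] (L : Set (E → SignType)), R3 L → ∀ e,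
  2 * (Nat.card E - 1) = Av L e + 2 * Bv L e

/-- CIA (short). Double counting of the pairs (element, double / triple vertex on it). -/
def CIA : Prop := ∀ (E : Type) [Fintype E] (L : Set (E → SignType)), R3 L →
  ∑ e, Av L e = 2 * {p | Vx L 2 p}.ncard ∧ ∑ e, Bv L e = 3 * {p | Vx L 3 p}.ncard

/-- CEV (short). Proof: `p -> -p` is an involution without fixed points of each of these sets (a vertex
is not `0`, see CIE; negatives of vertices are vertices: `Cork` is invariant under negation since
`fl (-T) e = -fl T e`). -/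
def CEV : Prop := ∀ (E : Type) [Finite E] (L : Set (E → SignType)), R3 L →
  Even {p | Vx L 3 p}.ncard ∧ ∀ e, Even (Av L e) ∧ Even (Bv L e)

/-- CDS (medium). Proof: let `P` be the set of the pairs `(T, p)`, `T` a tope, `p` a double vertex below
`T`; `|P| = 4 V2` by STC. For `(T, p)` in `P` there is exactly one wall `e` of `T` with `p e ≠ 0` (TRI).
`(T, p) -> (-T, -p)` exchanges the pairs with `T e = 1` and those with `T e = -1`, so there are `2 V2`
pairs with `T e = 1`. For fixed `e` the pairs with wall `e`, `p e ≠ 0`, `T e = 1` correspond to the elements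
of `Ds L e` (`p` is determined by `T` and `e`, TRI). -/
def CDS : Prop := ∀ (E : Type) [Fintype E] (L : Set (E → SignType)), R3 L →
  ∑ e, (Ds L e).ncard = 2 * {p | Vx L 2 p}.ncard

/-- CPR (medium-long). Parity. All vertices on `e` are triple. Let `P` be the set of the vertices on `e`
and `𝒯` the set of the topes `S` with wall `e`, `S e = 1`. For `p` in `P` the star of `p` has six topes,
three of them positive at `e`; two of these have the wall `e` (they are in `𝒯`), the third one, `Mid p`, has not
(PAT). Let `lab p` be the wall of `Mid p` outside `z(p)`. Let `S` be in `𝒯` with walls `e, j, k`, `p` the vertex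
of `S` with `p e = p k = 0`, `q` the vertex with `q j = q k = 0` (`q e ≠ 0`). Then `Mid p = fl S k` (PAT: `e` is
not a wall of `fl S k`, and `(fl S k) e = 1`). `fl S k` is in the star of `q`. If `q` is double, `j` is a wall
of `fl S k` (SZZ), and `j` is not in `z(p)`: `lab p = j`. If `q` is triple, `z(q) = {j, k, t}`, then `t` is a
wall of `fl S k` and `j` is not (PAT), and `t` is not in `z(p)` (PUN: `q ≠ p, -p` as `q e ≠ 0`): `lab p = t`.
Count the pairs `(S, p)`, `S` in `𝒯`, `p` in `P` below `S`, `lab p = x`: every `p` in `P` is below exactly two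
`S` in `𝒯`, so the number is even. For a fixed `S`: if `q` is triple both labels are `t`: `0` or `2` pairs.
If `q` is double (that is, `S` in `Ds L e`) the two labels are `j` and `k`: one pair if `x` is a
wall of `S` (`x ≠ e`), otherwise none. So the number in question has the parity of the number of pairs. -/
def CPR : Prop := ∀ (E : Type) [Finite E] (L : Set (E → SignType)), R3 L → ∀ e,
  (∀ p, Cork L p 2 → p e = 0 → Vx L 3 p) → ∀ x, x ≠ e →
    Even {S | S ∈ Ds L e ∧ Wall L S x}.ncard

/-- CKM (medium). Kelly - Moser. Proof (letters as in CPR). Suppose `|Ds L e| ≤ 2`. (0) `Ds L e` empty: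
for every `S` in `𝒯` with walls `e, j, k` the vertex `q` is triple, `z(q) = {j, k, t}`; put `t = t(S)`;
`t(S)` is not a wall of `S` (PAT) and not `e` (`q e ≠ 0`). If `S, S'` in `𝒯` are different and in the star
of `Z`, `Z e = 0`, then with `z(Z) = {e, k, k'}` `S` has the walls `e, k`, `S' = fl (fl S k) k'` has the walls
`e, k'`, and `fl S k` has the walls `k, k', t(S)`, also `= k, k', t(S')` (see CPR), so `t(S) = t(S')`. By CHN
`t` is constant, `= x`. Let `p` be a vertex with `p e = p x = 0` (PEX), it is triple; by PAT some tope of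
its star has walls `e`, `x`, and also its opposite (`cmp p (-T)`), so there is one in `𝒯`: `x` is a wall
of it: contradiction. (1) `Ds L e = {A}`: `x` a wall of `A`, `x ≠ e`: CPR is violated.
(2) `Ds L e = {A, B}`: by CPR `A`, `B` have the same walls `e, x, y`. `q` the double vertex of `A` with
`q x = q y = 0`, the same for `B`: `q' = q` or `-q` (PUN), and `q e = A e = 1 = B e = q' e`, so `q' = q` and
`B = A` off `{x, y}`. If `B = fl A x`: the vertex `p` of `A` with `p e = p x = 0` is triple and `A` has the walls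
`e, x` in it, so `e` is no wall of `fl A x` (PAT): contradiction; in the same way `B ≠ fl A y`. So
`B x = -A x`, `B y = -A y`. Let `p`, `p'` be the vertices of `A`, `B` with zeros `e, x`: `p' = p` or `-p`
(PUN), `p y = A y`, `p' y = B y = -A y` (not zero: otherwise `p = q` up to sign), so `p' = -p`. For `g` with
`p g ≠ 0`: `A g = p g`, `B g = -p g`, so `A g ≠ B g` and `g` is `x` or `y`, so `g = y`. So `E = z(p) + y`, and in
the same way `E = z(p2) + x` for the vertex `p2` with zeros `e, y`. `z(p) = {e, x, c}` with `c ≠ x, y, e`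
(`c = y` would give `p y = 0`); `c` is in `z(p2)`; so `p` and `p2` have the common zeros `e`, `c`, `p2 = ±p` (PUN),
but `p y ≠ 0 = p2 y`: contradiction. -/
def CKM : Prop := ∀ (E : Type) [Finite E] (L : Set (E → SignType)), R3 L → ∀ e,
  (∀ p, Cork L p 2 → p e = 0 → Vx L 3 p) → 3 ≤ (Ds L e).ncard

/-- NUM (medium, pure arithmetic). Proof: `t + V2 + V3 = f + 2`, `3 t = 2 f`, `3 t = 4 V2 + 6 V3` give
`V2 = 6`. So `Σ A = Σ D = 12`, at most four `e` have `A e = 0`. `n` even: `2(n-1) = A + 2B`, `B` even, so
`A e = 2 mod 4`, `A e ≥ 2`, `n ≤ 6`. `n` odd: `A e = 0 mod 4`, at least `n - 4` of them are `≥ 4`, so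
`n ≤ 7`. `n (n-1) = 6 + 3 V3` with `V3` even excludes `n = 5`. `n = 3`: `4 = A + 2B`, `A` is `0` or `4`, the sum
is `12`. `n = 4`: `6 = A + 2B`: `A` is `2` or `6`. `n = 6`: `A e ≥ 2` and the sum is `12`. `n = 7`: at least three `A e`
are `≥ 4`, so exactly three are `4` and the others `0`. -/
def NUM : Prop := ∀ (E : Type) [Fintype E] (A B D : E → ℕ) (t f V2 V3 : ℕ), 3 ≤ Fintype.card E →
  t + (V2 + V3) = f + 2 → 3 * t = 2 * f → 3 * t = 4 * V2 + 6 * V3 →
  (∀ e, 2 * (Fintype.card E - 1) = A e + 2 * B e) → (∀ e, Even (A e)) → (∀ e, Even (B e)) → Even V3 →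
  ∑ e, A e = 2 * V2 → ∑ e, B e = 3 * V3 → ∑ e, D e = 2 * V2 → (∀ e, A e = 0 → 3 ≤ D e) →
  (Fintype.card E = 3 ∧ ∀ e, A e = 4 ∧ B e = 0) ∨
  (Fintype.card E = 4 ∧ ∀ e, (A e = 6 ∧ B e = 0) ∨ (A e = 2 ∧ B e = 2)) ∨
  (Fintype.card E = 6 ∧ ∀ e, A e = 2 ∧ B e = 4) ∨
  (Fintype.card E = 7 ∧ ∀ e, (A e = 0 ∧ B e = 6) ∨ (A e = 4 ∧ B e = 4))

/-- NAD (medium). Two double vertices of a tope. Proof: by TRI the two vertices have a common zero `e`
among the walls: `z(p) = {e, g}`, `z(q) = {e, h}`, the walls of `T` are `e, g, h`. `S = fl T e` is in the stars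
of `p` and `q`, so `e, g, h` are its walls (SZZ). Let `r`, `r'` be the vertices of `T`, `S` with zeros `g`,
`h` (nonzero at `e`). `r' = r` or `-r` (PUN), `r' e = S e = -T e = -r e`, so `r' = -r`. If `r x ≠ 0` then
`T x = r x`, `S x = -r x`, so `x = e`. So `E = z(r) + e` has at most `4` elements. -/
def NAD : Prop := ∀ (E : Type) [Finite E] (L : Set (E → SignType)), R3 L → ∀ T p q, IsTope L T →
  Vx L 2 p → Vx L 2 q → p ≠ q → Le p T → Le q T → Nat.card E ≤ 4

/-- NBC (medium). Every vertex on `e` has exactly two neighbours on `e`, different from its negative.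
Proof: let `T` be a tope of the star of `v` with wall `e` (GAT), `l` its other wall in `z(v)`, `w` its vertex
`≠ v` with `w e = 0` (TRI). `T'' ` := the tope which is `T` at `e` and off `z(v)`, and `-T` on `z(v) \ {e}`: it is
`cmp F T`, `F = cmp v (-(fz T e))`, and has wall `e` (WFZ). `w''` the vertex `≠ v` of `T''` with zero `e`.
`w l = T l ≠ 0` (otherwise `w = v`), `w'' l` is `0` or `-T l`, so `w ≠ w''`. Let `S` be a tope of the star of
`v` with wall `e`; the vertices of `S` and `fl S e` on `e` are the same, so let `S e = T e`. Claim: `S = T` or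
`S = T''`. If `S ≠ T`, GEO: a wall of `T` where they differ, it must be `l`: `S l = -T l`. If `z(v) = {e, l}`,
`S = T''`. If `z(v) = {e, l, c}` and `S c = -T c`: `S = T''`. If `S c = T c`: `S = fl T l`, but `e` is not a wall of
`fl T l` (PAT). So the neighbours are exactly `w`, `w''`. A neighbour `w` of `v`: `v`, `w` are below one
tope and `v ≠ 0`, so `w ≠ -v`. -/
def NBC : Prop := ∀ (E : Type) [Finite E] (L : Set (E → SignType)), R3 L → ∀ v e, Cork L v 2 →
  v e = 0 → {w | Nb L e v w}.ncard = 2 ∧ ¬ Nb L e v (fun g => -v g)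

/-- LO7 (medium). Equal types of the two neighbours. Proof: first negation: `Nb L e v w` iff
`Nb L e (-v) (-w)`; `Nb` is symmetric; the neighbours of `p` on `e` are not `±p` (NBC). `Bv e = 0`: no triple vertex
on `e`. `Av e = 0`: all vertices on `e` are triple (SZZ). `Av e = 2`, `p` double: the double vertices on
`e` are `p`, `-p`, so both neighbours are triple. `Av e = 2 = Bv e`, `p` triple: the triple ones are `±p`, so
both neighbours are double. `Av e = 4 = Bv e`, `n = 7`: a double vertex on `e` has no double neighbour (NAD),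
so its two neighbours (NBC) are triple: there are `8` pairs (double, triple neighbour). The four
triple ones have two neighbours each, so all their neighbours are double. -/
def LO7 : Prop := ∀ (E : Type) [Finite E] (L : Set (E → SignType)), R3 L → ∀ p e, Cork L p 2 →
  p e = 0 → ((Bv L e = 0) ∨ (Av L e = 0) ∨ (Av L e = 2 ∧ Vx L 2 p) ∨ (Av L e = 2 ∧ Bv L e = 2) ∨
    (Nat.card E = 7 ∧ Av L e = 4 ∧ Bv L e = 4)) →
  ∀ w w', Nb L e p w → Nb L e p w' → (Vx L 3 w ↔ Vx L 3 w')

/-- LO6 (medium). Six elements. Proof: on `e` there are the double vertices `d, -d` and the triple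
ones `p, -p, t, -t`. Negation and symmetry of `Nb` as in LO7. The neighbours `w ≠ w'` of `p` are not `±p`.
Both double: `{w, w'} = {d, -d}`; then `p`, `-p` are the two neighbours of `d` and of `-d`; the neighbours of `t`
are not `±t`, so in `{±d, ±p}`, but those of `±d` are `±p` and those of `±p` are `±d`: contradiction to
NBC for `t`. Both triple: `{w, w'} = {t, -t}`: the neighbours of `±t` are `±p`, those of `±p` are `±t`, and
`d` has no neighbour left. So exactly one is triple. -/
def LO6 : Prop := ∀ (E : Type) [Finite E] (L : Set (E → SignType)), R3 L → ∀ p e, Vx L 3 p →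
  p e = 0 → Av L e = 2 → Bv L e = 4 →
  ∀ w w', w ≠ w' → Nb L e p w → Nb L e p w' → (Vx L 3 w ↔ ¬ Vx L 3 w')

/-- EXO (medium). Proof. Let `k` be the third wall of `S`, `w_a`, `w_b` the vertices `≠ p` of `S` with
zero `a`, resp. `b` (zeros `a, k`, resp. `b, k`; `w_a b ≠ 0`; they are different), so `Tr L p S a` iff `w_a` is
triple. Not both fail: then `w_a`, `w_b` are double (SZZ), against NAD. Not both hold: `S' = cmp p (-S)` is a
tope with walls `a`, `b` too (`fl S' a = cmp p (-(fl S a))`); let `w_a'` be its vertex `≠ p` with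
zero `a`. `w_a' ≠ w_a` (`w_a b = S b`, `w_a' b = -S b`), both are neighbours of `p` on `a`, so by LO6
`w_a'` is not triple, hence double; the same for `b`; contradiction to NAD for `S'`. -/
def EXO : Prop := ∀ (E : Type) [Finite E] (L : Set (E → SignType)), R3 L → 4 < Nat.card E →
  ∀ p, Vx L 3 p → (∀ e, p e = 0 → Av L e = 2 ∧ Bv L e = 4) → ∀ S, IsTope L S → Le p S → ∀ a b,
    a ≠ b → Wall L S a → Wall L S b → p a = 0 → p b = 0 → (Tr L p S a ↔ ¬ Tr L p S b)

/-- CYS (short-medium). The sum around a vertex, case of equal ends. Proof: put `δ e = 1` if `Tr L p S e`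
for some (equivalently every) tope `S` of the star with wall `e`, `0` otherwise, and
`c S = c0 + Σ_{e : p e = 0, S e ≠ T e} δ e * T e * f e`. Crossing `e` from `S` with `S e = T e` adds
`δ e * S e * f e`; if `S e = -T e` it subtracts `δ e * T e * f e = -δ e * S e * f e`. -/
def CYS : Prop := ∀ (E : Type) [Finite E] (L : Set (E → SignType)), R3 L → ∀ p, Cork L p 2 →
  ∀ (f : E → ℝ) (T : E → SignType), IsTope L T → Le p T →
    (∀ S S', IsTope L S → Le p S → IsTope L S' → Le p S' → ∀ e, p e = 0 → Wall L S e → Wall L S' e →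
      (Tr L p S e ↔ Tr L p S' e)) →
    ∀ c0 : ℝ, ∃ c : (E → SignType) → ℝ, c T = c0 ∧ ∀ S, IsTope L S → Le p S → ∀ e, Wall L S e →
      p e = 0 → (Tr L p S e → c (fl S e) = c S + (S e : ℝ) * f e) ∧
        (¬ Tr L p S e → c (fl S e) = c S)

/-- CYA (medium). The sum around a vertex, alternating case. Proof: a tope `S` of the star has exactly
two walls in `z(p)`, one, `a`, with `Tr L p S a`, the other one, `b`, without. Put
`P S = -(2/3) * S a * f a - (1/3) * S b * f b` and `c S = c0 + P S - P T`. Let `z(p) = {a, b, c}`; `f` in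
`FC L p` gives `S c * f c = S a * f a + S b * f b`. `S' = fl S a` has the walls `a`, `c` (PAT) and `Tr L p S' a`
(same vertex as for `S`), so not `Tr L p S' c`: `P S' = (2/3) S a f a - (1/3) S c f c
= (1/3) S a f a - (1/3) S b f b = P S + S a f a`. `S' = fl S b` has the walls `b`, `c`, not `Tr L p S' b`, so
`Tr L p S' c`: `P S' = -(2/3) S c f c + (1/3) S b f b = P S`. -/
def CYA : Prop := ∀ (E : Type) [Finite E] (L : Set (E → SignType)), R3 L → ∀ p, Vx L 3 p →
  ∀ f ∈ FC L p, ∀ T, IsTope L T → Le p T →
    (∀ S, IsTope L S → Le p S → ∀ a b, a ≠ b → Wall L S a → Wall L S b → p a = 0 → p b = 0 →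
      (Tr L p S a ↔ ¬ Tr L p S b)) →
    ∀ c0 : ℝ, ∃ c : (E → SignType) → ℝ, c T = c0 ∧ ∀ S, IsTope L S → Le p S → ∀ e, Wall L S e →
      p e = 0 → (Tr L p S e → c (fl S e) = c S + (S e : ℝ) * f e) ∧
        (¬ Tr L p S e → c (fl S e) = c S)

/-- HFP (medium). From the sums to a compatible family. `k0` is the wall of `T` off `z(p)`. Proof: put
`a S g = f g` if `p g = 0`, and `a S g = S g * c S` otherwise. For `T` this is `a0` on the walls
(`S g * S g = 1`). Let `S` be in the star, `e` a wall, `p e = 0`, `S' = fl S e`. `a S e = f e = a S' e`. Let `Z` be of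
corank `2`, `Le Z S`, `Z e = 0`; the walls of `S` are `e`, `j` (`p j = 0`), `k` (`p k ≠ 0`). If `Z j = 0` then
`Z = p` (XUQ), take `f`. Otherwise `Z k = 0`, `Z ≠ p`, `Z` is the only vertex `≠ p` of `S` with zero `e`,
so `Tr L p S e` iff `Z` is triple. Take `f'` in `FC L Z` with `f' e = f e`, `f' k = S k * c S` (CDC,
`CD.ext`). `Z` double: `z(Z) = {e, k}`, the walls of `S'` in `z(Z)` are `e`, `k`, `S' k = S k`, `c S' = c S`.
`Z` triple, `z(Z) = {e, k, k'}`: the walls of `S'` in `z(Z)` are `e`, `k'` (PAT); the relation for `S`: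
`S k' * f' k' = S e * f e + S k * f' k = S e * f e + c S = c S'`, and `S' k' = S k'`, so
`f' k' = S' k' * c S' = a S' k'` (`p k' ≠ 0` by PUN, `Z ≠ ±p`: `Le Z S`, `Le p S`). -/
def HFP : Prop := ∀ (E : Type) [Finite E] (L : Set (E → SignType)), R3 L → ∀ p, Cork L p 2 →
  ∀ T, IsTope L T → Le p T → ∀ k0, Wall L T k0 → p k0 ≠ 0 → ∀ a0 : E → ℝ, ∀ f ∈ FC L p,
    (∀ g, Wall L T g → p g = 0 → f g = a0 g) → ∀ c : (E → SignType) → ℝ, c T = (T k0 : ℝ) * a0 k0 →
    (∀ S, IsTope L S → Le p S → ∀ e, Wall L S e → p e = 0 →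
      (Tr L p S e → c (fl S e) = c S + (S e : ℝ) * f e) ∧ (¬ Tr L p S e → c (fl S e) = c S)) →
    ∃ a : (E → SignType) → E → ℝ, (∀ g, Wall L T g → a T g = a0 g) ∧
      ∀ S, IsTope L S → Le p S → ∀ e, Wall L S e → p e = 0 → Comp L (FC L) S e (a S) (a (fl S e))

/-- RFI (medium). Assembly in rank three. Proof: `n = Nat.card E ≥ 3` (three walls). NUM with
`A = Av L`, `B = Bv L`, `D e = (Ds L e).ncard` and EUL, IN1, IN2, CIE, CIA, CEV, CDS, CKM (if `Av L e = 0` there is
no double vertex on `e`, so all are triple by SZZ). Let `p`, `T`, `a0` be given; `f` in `FC L p` with the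
values `a0` at the two walls of `T` in `z(p)` (CDC), `k0` the third wall. If `n ≠ 6` or `p` is double: by LO7
CYS applies (for topes `S`, `S'` of the star with wall `e` the vertices `w`, `w'` `≠ p` with zero `e` are
neighbours of `p`; `Tr L p S e` iff `w` is triple). Otherwise `n = 6`, `p` triple: EXO, CYA. Then HFP. -/
def RFI : Prop := ∀ (E : Type) [Finite E] (L : Set (E → SignType)), R3 L → HF L (FC L)

end Pool.Agent.helper66.SL
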