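import Pool.Agent.helper66.SL.SpecB
import Pool.Agent.helper66.SL.SpecC

/-!
# Simplicial oriented matroids (MP_ad2b66_co): assembly from the rows
-/

set_option autoImplicit false

namespace Pool.Agent.helper66.SL

open Pool.Agent.helper52.FC

/-- Full in rank three. -/
theorem asm_full3 (hCDC : CDC) (hCOR : COR) (hRFI : RFI) :
    ∀ (E : Type) [Finite E] (M : Set (E → SignType)), R3 M → Full M (FC M) := by
  intro E _ M hM
  exact hCOR E M (FC M) hM.good (hCDC E M hM.good hM.cl) (hRFI E M hM)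

/-- Theorem C, realizability. -/
theorem asm_C (hCDC : CDC) (hCOR : COR) (hRFI : RFI) (hLH3 : LH3) (hHHF : HHF) (hREA : REA)
    (E : Type) [Finite E] (L : Set (E → SignType)) (hL : Good L)
    (hc : ∀ a b, a ≠ b → {g | Cl2 L a b g}.ncard ≤ 3) :
    ∃ (d : ℕ) (v : E → EuclideanSpace ℝ (Fin d)), L = arr v := by
  have hcd := hCDC E L hL hc
  have h3 := hLH3 (asm_full3 hCDC hCOR hRFI) E L hL hc
  have hf := hHHF E L (FC L) hL hcd h3
  exact hREA E L (FC L) hL hcd (hCOR E L (FC L) hL hcd hf)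

/-- The polytope. -/
theorem asm_poly (hZO3 : ZO3) (E : Type) [Finite E] (L : Set (E → SignType)) (hL : Good L) {d : ℕ}
    (v : E → EuclideanSpace ℝ (Fin d)) (hv : L = arr v) : ∃ s : Finset (EuclideanSpace ℝ (Fin d)),
      Nonempty (topeGraph L ≃g skeleton (convexHull ℝ (s : Set (EuclideanSpace ℝ (Fin d))))) := by
  classical
  have := Fintype.ofFinite E
  have hfin : Finite {T : E → SignType // IsTope L T} := inferInstance
  have := Fintype.ofFinite {T : E → SignType // IsTope L T}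
  refine ⟨(Finset.univ : Finset {T : E → SignType // IsTope L T}).image
    (fun T => ∑ e, (T.1 e : ℝ) • v e), ?_⟩
  have h1 : (((Finset.univ : Finset {T : E → SignType // IsTope L T}).image
      (fun T => ∑ e, (T.1 e : ℝ) • v e) : Finset (EuclideanSpace ℝ (Fin d))) :
        Set (EuclideanSpace ℝ (Fin d))) =
      Set.range fun T : {T : E → SignType // IsTope L T} => ∑ e, (T.1 e : ℝ) • v e := by
    simp
  rw [h1]
  exact hZO3 E L d v hL.simple hv

/-- Theorem C with the polytope. -/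
theorem asm_C' (hCDC : CDC) (hCOR : COR) (hRFI : RFI) (hLH3 : LH3) (hHHF : HHF) (hREA : REA)
    (hZO3 : ZO3) (E : Type) [Finite E] (L : Set (E → SignType)) (hL : Good L)
    (hc : ∀ a b, a ≠ b → {g | Cl2 L a b g}.ncard ≤ 3) :
    ∃ (d : ℕ) (v : E → EuclideanSpace ℝ (Fin d)), L = arr v ∧
      ∃ s : Finset (EuclideanSpace ℝ (Fin d)),
        Nonempty (topeGraph L ≃g skeleton (convexHull ℝ (s : Set (EuclideanSpace ℝ (Fin d))))) := by
  obtain ⟨d, v, hv⟩ := asm_C hCDC hCOR hRFI hLH3 hHHF hREA E L hL hc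
  exact ⟨d, v, hv, asm_poly hZO3 E L hL v hv⟩

/-- Theorem LG. -/
theorem asm_LG (hUCD : UCD) (hUH3 : UH3) (hULC : ULC) (hCOR : COR) (hHHF : HHF) (hREA : REA)
    (E : Type) [Finite E] (L : Set (E → SignType)) (hL : Good L) :
    (∃ (d : ℕ) (v : E → EuclideanSpace ℝ (Fin d)), L = arr v) ↔
      ∃ u : E → E → E → E → EuclideanSpace ℝ (Fin 3), Local L u := by
  constructor
  · rintro ⟨d, v, rfl⟩
    exact hULC E d v
  · rintro ⟨u, hu⟩
    have hcd := hUCD E L u hL hu
    have h3 := hUH3 E L u hL hu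
    have hf := hHHF E L (FL L u) hL hcd h3
    exact hREA E L (FL L u) hL hcd (hCOR E L (FL L u) hL hcd hf)

end Pool.Agent.helper66.SL
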