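import Pool.Agent.helper66.SL.SpecA

set_option autoImplicit false

namespace Pool.Agent.helper66.SL

open Pool.Agent.helper52.FC

theorem BAL_symm {E : Type} {L : Set (E → SignType)} {F : (E → SignType) → Submodule ℝ (E → ℝ)}
    {S : E → SignType} {e : E} {x y : E → ℝ} (h : Comp L F S e x y) : Comp L F (fl S e) e y x := by
  refine ⟨h.1.symm, fun Z hZ hZS hZe => ?_⟩
  have hZS' : Le Z S := by
    intro g
    by_cases hg : g = e
    · subst hg
      exact Or.inl hZe
    · have := hZS g
      rwa [fl_ne _ hg] at this
  obtain ⟨f, hf, h1, h2⟩ := h.2 Z hZ hZS' hZe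
  refine ⟨f, hf, h2, fun g hg hZg => ?_⟩
  rw [fl_fl] at hg
  exact h1 g hg hZg

theorem BAL_wall {E : Type} {L : Set (E → SignType)} {S : E → SignType} (hS : IsTope L S) (e : E) :
    Wall L (fl S e) e := by
  unfold Wall
  rw [fl_fl]
  exact hS

theorem BAL_congr {E : Type} {L : Set (E → SignType)} {F : (E → SignType) → Submodule ℝ (E → ℝ)}
    {S : E → SignType} (hS : IsTope L S) {e : E} (he : Wall L S e) {x y y' : E → ℝ}
    (h : Comp L F S e x y) (hy : ∀ g, Wall L (fl S e) g → y g = y' g) : Comp L F S e x y' := by
  refine ⟨h.1.trans (hy e (BAL_wall hS e)), fun Z hZ hZS hZe => ?_⟩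
  obtain ⟨f, hf, h1, h2⟩ := h.2 Z hZ hZS hZe
  exact ⟨f, hf, h1, fun g hg hZg => (hy g hg).symm.trans (h2 g hg hZg)⟩

theorem BAL_dist {E : Type} [Finite E] {L : Set (E → SignType)} (hs : IsSimple L) (hL : IsOM L)
    {B S : E → SignType} (hB : IsTope L B) (hS : IsTope L S) {e : E} (h : S e = B e) :
    dist B (fl S e) = dist B S + 1 := by
  have h1 : {g | B g ≠ fl S e g} = insert e {g | B g ≠ S g} := by
    ext g
    by_cases hg : g = e
    · subst hg
      simp only [Set.mem_setOf_eq, Set.mem_insert_iff, true_or, iff_true]
      rw [fl_same, h]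
      intro h2
      have h3 := tope_supp hL hs hB g
      exact h3 (sneg h2 rfl)
    · simp only [Set.mem_setOf_eq, Set.mem_insert_iff, hg, false_or]
      rw [fl_ne _ hg]
  unfold dist
  rw [h1, Set.ncard_insert_of_notMem _ (Set.toFinite _)]
  simp [h]

theorem BAL_self {E : Type} (B : E → SignType) : dist B B = 0 := by
  unfold dist
  simp

theorem BAL_proof (hGEO : GEO) (hTRE : TRE) (hSAM : SAM) : BAL := by
  intro E _ L F hL hF hHF B hB a0 n
  classical
  induction n with
  | zero =>
    refine ⟨fun _ => a0, fun _ _ => rfl, fun S hS hd e he hd' => ?_⟩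
    exfalso
    by_cases h : S e = B e
    · have := BAL_dist hL.simple hL.om hB hS h
      omega
    · have h1 : dist B (fl (fl S e) e) = dist B (fl S e) + 1 := by
        refine BAL_dist hL.simple hL.om hB he ?_
        rw [fl_same, sne (tope_supp hL.om hL.simple hS e) (tope_supp hL.om hL.simple hB e) h]
        simp
      rw [fl_fl] at h1
      omega
  | succ n ih =>
    obtain ⟨a, ha0, ha⟩ := ih
    have hch : ∀ T, IsTope L T ∧ dist B T = n + 1 → ∃ (i : E) (y : E → ℝ), Wall L T i ∧ T i ≠ B i ∧
        Comp L F (fl T i) i (a (fl T i)) y := by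
      rintro T ⟨hT, hd⟩
      have hne : T ≠ B := by
        rintro rfl
        rw [BAL_self] at hd
        omega
      obtain ⟨i, hi, hi'⟩ := hGEO E L hL.om hL.simple T B hT hB hne
      obtain ⟨y, hy⟩ := hTRE E L F hL hF (fl T i) hi i (BAL_wall hT i) (a (fl T i))
      exact ⟨i, y, hi, hi', hy⟩
    rcases isEmpty_or_nonempty E with hE | hE
    · exact ⟨a, ha0, fun S hS hd e => (hE.false e).elim⟩
    choose! i y hi hiB hy using hch
    refine ⟨fun T => if IsTope L T ∧ dist B T = n + 1 then y T else a T, ?_, ?_⟩
    · intro g hg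
      have h1 : ¬ (IsTope L B ∧ dist B B = n + 1) := by
        rw [BAL_self]
        omega
      simp only [if_neg h1]
      exact ha0 g hg
    · -- the first case
      have key : ∀ S, IsTope L S → dist B S ≤ n + 1 → ∀ e, Wall L S e → dist B (fl S e) ≤ n + 1 →
          S e = B e → Comp L F S e ((fun T => if IsTope L T ∧ dist B T = n + 1 then y T else a T) S)
            ((fun T => if IsTope L T ∧ dist B T = n + 1 then y T else a T) (fl S e)) := by
        intro S hS hd e he hd' hSe
        have h1 := BAL_dist hL.simple hL.om hB hS hSe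
        have h2 : ¬ (IsTope L S ∧ dist B S = n + 1) := by
          rintro ⟨-, h3⟩
          omega
        simp only [if_neg h2]
        by_cases h3 : dist B (fl S e) = n + 1
        · have h4 : IsTope L (fl S e) ∧ dist B (fl S e) = n + 1 := ⟨he, h3⟩
          simp only [if_pos h4]
          have hSe' : fl S e e ≠ B e := by
            rw [fl_same, ← hSe]
            intro h5
            exact tope_supp hL.om hL.simple hS e (sneg h5.symm rfl)
          by_cases hie : i (fl S e) = e
          · have h5 := hy (fl S e) h4
            rw [hie, fl_fl] at h5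
            exact h5
          · obtain ⟨y', hy'⟩ := hTRE E L F hL hF S hS e he (a S)
            refine BAL_congr hS he hy' ?_
            intro g hg
            have hy'' : Comp L F (fl (fl S e) e) e (a (fl (fl S e) e)) y' := by
              rw [fl_fl]
              exact hy'
            have h5 := hSAM E L F hL hF hHF B (fl S e) hB he (i (fl S e)) e hie (hi _ h4)
              (BAL_wall hS e) (hiB _ h4) hSe' a (fun S' hS' hd1 e' he' hd2 =>
                ha S' hS' (by omega) e' he' (by omega)) (y (fl S e)) y' (hy _ h4) hy'' g hg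
            exact h5.symm
        · have h4 : ¬ (IsTope L (fl S e) ∧ dist B (fl S e) = n + 1) := fun h5 => h3 h5.2
          simp only [if_neg h4]
          exact ha S hS (by omega) e he (by omega)
      intro S hS hd e he hd'
      by_cases hSe : S e = B e
      · exact key S hS hd e he hd' hSe
      · have h1 : fl S e e = B e := by
          rw [fl_same, sne (tope_supp hL.om hL.simple hS e) (tope_supp hL.om hL.simple hB e) hSe]
          simp
        have h2 := key (fl S e) he hd' e (BAL_wall hS e) (by rw [fl_fl]; exact hd) h1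
        have h3 := BAL_symm h2
        rw [fl_fl] at h3
        exact h3

end Pool.Agent.helper66.SL
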