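import Mathlib
import Pool.Agent.helper52.FC.OM

/-!
# Simplicial oriented matroids with small rank two flats: definitions

`IsOM`, `IsSimple`, `IsTope`, `Le`, `cmp` (composition), `restr`, `arr`, `topeGraph`, `skeleton` are
those of `Pool/Agent/helper52/FC/Defs.lean`; `recon_eq`, `arr_om`, `restr_om`, `sep`, `exists_diff`,
`tope_supp`, `tope_of`, `tope_neg`, `cmp_pos`, `cmp_neg`, `sneg`, `sne` are in
`Pool/Agent/helper52/FC/OM.lean`.
-/

set_option autoImplicit false

namespace Pool.Agent.helper66.SL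

open Pool.Agent.helper52.FC

variable {E : Type}

/-- Simplicial: for every tope `T` the interval of the covectors below `T` is isomorphic to the lattice
of all subsets of a finite set. -/
def Simplicial (L : Set (E → SignType)) : Prop :=
  ∀ T, IsTope L T → ∃ (n : ℕ) (φ : {X : E → SignType // X ∈ L ∧ Le X T} ≃ Set (Fin n)),
    ∀ X Y, Le X.1 Y.1 ↔ φ X ⊆ φ Y

/-- `g` lies in the flat spanned by `a` and `b`. -/
def Cl2 (L : Set (E → SignType)) (a b g : E) : Prop :=
  ∀ X ∈ L, X a = 0 → X b = 0 → X g = 0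

/-- `g` lies in the flat spanned by `a`, `b`, `c`. -/
def Cl3 (L : Set (E → SignType)) (a b c g : E) : Prop :=
  ∀ X ∈ L, X a = 0 → X b = 0 → X c = 0 → X g = 0

/-- A simple simplicial oriented matroid. -/
structure Good (L : Set (E → SignType)) : Prop where
  om : IsOM L
  simple : IsSimple L
  simplicial : Simplicial L

open Classical in
/-- `T` with the sign of `e` changed. -/
noncomputable def fl (T : E → SignType) (e : E) : E → SignType := fun g => if g = e then -T g else T g

open Classical in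
/-- `T` with the value `0` at `e`. -/
noncomputable def fz (T : E → SignType) (e : E) : E → SignType := fun g => if g = e then 0 else T g

/-- `e` is a wall of `T`. -/
def Wall (L : Set (E → SignType)) (T : E → SignType) (e : E) : Prop := IsTope L (fl T e)

/-- `X` is a covector of corank `k`: every tope above `X` has exactly `k` walls on which `X` is zero. -/
def Cork (L : Set (E → SignType)) (X : E → SignType) (k : ℕ) : Prop :=
  X ∈ L ∧ ∀ T, IsTope L T → Le X T → {e | Wall L T e ∧ X e = 0}.ncard = k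

/-- The number of elements which separate `S` and `T`. -/
noncomputable def dist (S T : E → SignType) : ℕ := {e | S e ≠ T e}.ncard

/-- Data on the rank two flats: for every covector `Z` of corank two a space `F Z` of functions (only
the values on the zero set of `Z` matter), which are determined by arbitrary values at the two walls
of any tope above `Z`, with positivity. -/
structure CD (L : Set (E → SignType)) (F : (E → SignType) → Submodule ℝ (E → ℝ)) : Prop where
  loc : ∀ Z, Cork L Z 2 → ∀ f ∈ F Z, ∀ f' : E → ℝ, (∀ e, Z e = 0 → f' e = f e) → f' ∈ F Z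
  ext : ∀ Z, Cork L Z 2 → ∀ T, IsTope L T → Le Z T → ∀ i j, i ≠ j → Wall L T i → Wall L T j →
    Z i = 0 → Z j = 0 → ∀ x y : ℝ, ∃ f ∈ F Z, f i = x ∧ f j = y
  uniq : ∀ Z, Cork L Z 2 → ∀ T, IsTope L T → Le Z T → ∀ i j, i ≠ j → Wall L T i → Wall L T j →
    Z i = 0 → Z j = 0 → ∀ f ∈ F Z, f i = 0 → f j = 0 → ∀ g, Z g = 0 → f g = 0
  pos : ∀ Z, Cork L Z 2 → ∀ T, IsTope L T → Le Z T → ∀ i j, i ≠ j → Wall L T i → Wall L T j →
    Z i = 0 → Z j = 0 → ∀ f ∈ F Z, 0 < (T i : ℝ) * f i → 0 < (T j : ℝ) * f j →
      ∀ g, Z g = 0 → 0 < (T g : ℝ) * f g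

/-- The values `x` on the walls of `S` and `y` on the walls of `fl S e` are compatible. -/
def Comp (L : Set (E → SignType)) (F : (E → SignType) → Submodule ℝ (E → ℝ)) (S : E → SignType) (e : E)
    (x y : E → ℝ) : Prop :=
  x e = y e ∧ ∀ Z, Cork L Z 2 → Le Z S → Z e = 0 → ∃ f ∈ F Z,
    (∀ g, Wall L S g → Z g = 0 → x g = f g) ∧ (∀ g, Wall L (fl S e) g → Z g = 0 → y g = f g)

/-- No holonomy around the covectors of corank two. -/
def HF (L : Set (E → SignType)) (F : (E → SignType) → Submodule ℝ (E → ℝ)) : Prop :=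
  ∀ Z, Cork L Z 2 → ∀ T, IsTope L T → Le Z T → ∀ a0 : E → ℝ,
    ∃ a : (E → SignType) → E → ℝ, (∀ g, Wall L T g → a T g = a0 g) ∧
      ∀ S, IsTope L S → Le Z S → ∀ e, Wall L S e → Z e = 0 → Comp L F S e (a S) (a (fl S e))

/-- `f` restricts to a function of the data on every rank two flat. -/
def Lin (L : Set (E → SignType)) (F : (E → SignType) → Submodule ℝ (E → ℝ)) (f : E → ℝ) : Prop :=
  ∀ Z, Cork L Z 2 → f ∈ F Z

/-- Arbitrary values on the walls of a tope extend. -/
def Full (L : Set (E → SignType)) (F : (E → SignType) → Submodule ℝ (E → ℝ)) : Prop :=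
  ∀ B, IsTope L B → ∀ a0 : E → ℝ, ∃ f, Lin L F f ∧ ∀ i, Wall L B i → f i = a0 i

/-- Arbitrary values extend in the localizations of rank three. -/
def H3 (L : Set (E → SignType)) (F : (E → SignType) → Submodule ℝ (E → ℝ)) : Prop :=
  ∀ X, Cork L X 3 → ∀ T, IsTope L T → Le X T → ∀ a0 : E → ℝ,
    ∃ f : E → ℝ, (∀ g, Wall L T g → X g = 0 → f g = a0 g) ∧ ∀ Z, Cork L Z 2 → Le X Z → f ∈ F Z

/-- The data for rank two flats with at most three elements: the normal of the third element is the
sum of the normals of the two walls. -/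
def FC (L : Set (E → SignType)) (Z : E → SignType) : Submodule ℝ (E → ℝ) where
  carrier := {f | ∀ T, IsTope L T → Le Z T → ∀ a b c, a ≠ b → c ≠ a → c ≠ b → Wall L T a →
    Wall L T b → Z a = 0 → Z b = 0 → Z c = 0 → (T c : ℝ) * f c = T a * f a + T b * f b}
  add_mem' := by
    intro f f' h h' T hT hZ a b c h1 h2 h3 h4 h5 h6 h7 h8
    have := h T hT hZ a b c h1 h2 h3 h4 h5 h6 h7 h8
    have := h' T hT hZ a b c h1 h2 h3 h4 h5 h6 h7 h8
    simp only [Pi.add_apply, mul_add]
    linarith
  zero_mem' := by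
    intro T hT hZ a b c h1 h2 h3 h4 h5 h6 h7 h8
    simp
  smul_mem' := by
    intro r f h T hT hZ a b c h1 h2 h3 h4 h5 h6 h7 h8
    have := h T hT hZ a b c h1 h2 h3 h4 h5 h6 h7 h8
    simp only [Pi.smul_apply, smul_eq_mul]
    linear_combination r * this

/-- Rank three, all rank two flats have at most three elements. -/
structure R3 (L : Set (E → SignType)) : Prop where
  good : Good L
  rk : Cork L (fun _ => 0) 3
  cl : ∀ a b, a ≠ b → {g | Cl2 L a b g}.ncard ≤ 3

/-- `p` is a vertex on exactly `m` lines. -/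
def Vx (L : Set (E → SignType)) (m : ℕ) (p : E → SignType) : Prop :=
  Cork L p 2 ∧ {g | p g = 0}.ncard = m

/-- Number of double vertices on `e`. -/
noncomputable def Av (L : Set (E → SignType)) (e : E) : ℕ := {p | Vx L 2 p ∧ p e = 0}.ncard

/-- Number of triple vertices on `e`. -/
noncomputable def Bv (L : Set (E → SignType)) (e : E) : ℕ := {p | Vx L 3 p ∧ p e = 0}.ncard

/-- The topes on the positive side of `e` with wall `e` whose vertex off `e` is double. -/
def Ds (L : Set (E → SignType)) (e : E) : Set (E → SignType) :=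
  {T | IsTope L T ∧ Wall L T e ∧ T e = 1 ∧ ∃ p, Vx L 2 p ∧ Le p T ∧ p e ≠ 0}

/-- `v` and `w` are the ends of an edge on `e`. -/
def Nb (L : Set (E → SignType)) (e : E) (v w : E → SignType) : Prop :=
  Cork L v 2 ∧ Cork L w 2 ∧ v e = 0 ∧ w e = 0 ∧ v ≠ w ∧
    ∃ T, IsTope L T ∧ Wall L T e ∧ Le v T ∧ Le w T

/-- The edge of the tope `S` on `g` which starts at the vertex `p` ends in a triple vertex. -/
def Tr (L : Set (E → SignType)) (p S : E → SignType) (g : E) : Prop :=
  ∃ q, Vx L 3 q ∧ Le q S ∧ q g = 0 ∧ q ≠ p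

/-- The polytope of a vector family: the convex hull of the sums over the topes. -/
noncomputable def Zon [Fintype E] (L : Set (E → SignType)) {d : ℕ} (v : E → EuclideanSpace ℝ (Fin d)) :
    Set (EuclideanSpace ℝ (Fin d)) :=
  convexHull ℝ (Set.range fun T : {T : E → SignType // IsTope L T} => ∑ e, (T.1 e : ℝ) • v e)

theorem fl_same (T : E → SignType) (e : E) : fl T e e = -T e := by simp [fl]
theorem fl_ne (T : E → SignType) {e g : E} (h : g ≠ e) : fl T e g = T g := by simp [fl, h]
theorem fz_same (T : E → SignType) (e : E) : fz T e e = 0 := by simp [fz]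
theorem fz_ne (T : E → SignType) {e g : E} (h : g ≠ e) : fz T e g = T g := by simp [fz, h]
theorem fl_fl (T : E → SignType) (e : E) : fl (fl T e) e = T := by
  funext g
  by_cases h : g = e
  · subst h; simp [fl]
  · simp [fl, h]

end Pool.Agent.helper66.SL
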