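import Pool.Agent.helper66.SL.SpecA

set_option autoImplicit false

namespace Pool.Agent.helper66.SL

open Pool.Agent.helper52.FC

/-- A composition with a tope is a tope. -/
theorem GEO_cmp {E : Type} {L : Set (E → SignType)} (hL : IsOM L) (hs : IsSimple L)
    {X T : E → SignType} (hX : X ∈ L) (hT : IsTope L T) : IsTope L (Pool.Agent.helper52.FC.cmp X T) := by
  refine tope_of (hL.comp X hX T hT.1) fun g => ?_
  by_cases hg : X g = 0
  · rw [cmp_pos hg]
    exact tope_supp hL hs hT g
  · rwa [cmp_neg hg]

theorem GEO_proof : GEO := by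
  intro E _ L hL hs T R hT hR hne
  classical
  have := Fintype.ofFinite E
  -- the minimal choice
  set A : Set (E → SignType) := {R' | IsTope L R' ∧ R' ≠ T ∧ ∀ f, R f = T f → R' f = T f} with hA
  obtain ⟨R', hR', hmin⟩ := Set.exists_min_image A (fun R' => (Finset.univ.filter fun f => T f ≠ R' f).card)
    (Set.toFinite A) ⟨R, hR, hne.symm, fun f hf => hf⟩
  obtain ⟨hR't, hR'ne, hR'R⟩ := hR'
  have hcard : ∀ S ∈ A, (∀ f, T f ≠ S f → T f ≠ R' f) → ∀ f, T f ≠ R' f → T f ≠ S f := by
    intro S hS hsub f hf hf'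
    have h1 : (Finset.univ.filter fun f => T f ≠ S f) ⊂ (Finset.univ.filter fun f => T f ≠ R' f) := by
      rw [Finset.ssubset_iff_of_subset]
      · exact ⟨f, by simpa using hf, by simpa using hf'⟩
      · intro g hg
        have hg' : T g ≠ S g := by simpa using hg
        simpa using hsub g hg'
    exact absurd (hmin S hS) (not_le.2 (Finset.card_lt_card h1))
  obtain ⟨e, he⟩ : ∃ e, T e ≠ R' e := by
    by_contra h
    push Not at h
    exact hR'ne (funext fun g => (h g).symm)
  have hsT := tope_supp hL hs hT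
  have hsR' := tope_supp hL hs hR't
  by_cases huniq : ∀ f, T f ≠ R' f → f = e
  · refine ⟨e, ?_, fun h => he (hR'R e h.symm).symm⟩
    have h1 : fl T e = R' := by
      funext g
      by_cases hg : g = e
      · subst hg
        rw [fl_same, sne (hsT g) (hsR' g) he, neg_neg]
      · rw [fl_ne _ hg]
        by_contra h2
        exact hg (huniq g h2)
    unfold Wall
    rw [h1]
    exact hR't
  · exfalso
    push Not at huniq
    obtain ⟨f, hf, hfe⟩ := huniq
    have hTe : T e = -R' e := sne (hsT e) (hsR' e) he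
    obtain ⟨Z, hZ, hZe, hZ'⟩ := hL.elim T hT.1 R' hR't.1 e ⟨hTe, hsT e⟩
    have hZoff : ∀ g, T g = R' g → Z g = T g := by
      intro g hg
      rw [hZ' g, cmp_neg (hsT g)]
      rintro ⟨h1, -⟩
      exact hsT g (sneg h1 hg)
    -- Z o T = T
    have hZT : Pool.Agent.helper52.FC.cmp Z T = T := by
      by_contra hcon
      have hmem : Pool.Agent.helper52.FC.cmp Z T ∈ A := by
        refine ⟨GEO_cmp hL hs hZ hT, hcon, fun g hg => ?_⟩
        by_cases h1 : Z g = 0
        · rw [cmp_pos h1]
        · rw [cmp_neg h1]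
          exact hZoff g (hR'R g hg).symm
      have h2 := hcard _ hmem (fun g hg hg' => hg (by
        by_cases h1 : Z g = 0
        · rw [cmp_pos h1]
        · rw [cmp_neg h1]
          exact (hZoff g hg').symm)) e he
      apply h2
      rw [cmp_pos hZe]
    have hZR : ∀ g, Z g = 0 ∨ Z g = R' g := by
      have hne' : Pool.Agent.helper52.FC.cmp Z R' ≠ T := by
        intro h1
        have h2 := congrFun h1 e
        rw [cmp_pos hZe] at h2
        exact he h2.symm
      have hmem : Pool.Agent.helper52.FC.cmp Z R' ∈ A := by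
        refine ⟨GEO_cmp hL hs hZ hR't, hne', fun g hg => ?_⟩
        by_cases h1 : Z g = 0
        · rw [cmp_pos h1]
          exact hR'R g hg
        · rw [cmp_neg h1]
          exact hZoff g (hR'R g hg).symm
      have h2 := hcard _ hmem (fun g hg hg' => hg (by
        by_cases h1 : Z g = 0
        · rw [cmp_pos h1]
          exact hg'
        · rw [cmp_neg h1]
          exact (hZoff g hg').symm))
      intro g
      by_cases h1 : Z g = 0
      · exact Or.inl h1
      · right
        by_cases h3 : T g = R' g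
        · rw [hZoff g h3, h3]
        · have h4 := h2 g h3
          rw [cmp_neg h1] at h4
          rw [sne h1 (hsT g) (Ne.symm h4), sne (hsT g) (hsR' g) h3, neg_neg]
    have hZ0 : ∀ g, T g ≠ R' g → Z g = 0 := by
      intro g hg
      by_contra h1
      have h2 := congrFun hZT g
      rw [cmp_neg h1] at h2
      rcases hZR g with h3 | h3
      · exact h1 h3
      · exact hg (h2.symm.trans h3)
    -- a separating covector
    obtain ⟨Y, hY, hYe, hYf⟩ : ∃ Y ∈ L, Y e = 0 ∧ Y f = -T f := by
      obtain ⟨Y, hY, hYe, hYf⟩ := sep hL hs (Ne.symm hfe)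
      by_cases h1 : Y f = -T f
      · exact ⟨Y, hY, hYe, h1⟩
      · refine ⟨fun g => -Y g, hL.neg Y hY, by simp [hYe], ?_⟩
        have h2 : Y f = T f := by
          by_contra h3
          exact h1 (sne hYf (hsT f) h3)
        simp [h2]
    have hW : IsTope L (Pool.Agent.helper52.FC.cmp Z (Pool.Agent.helper52.FC.cmp Y T)) := GEO_cmp hL hs hZ (GEO_cmp hL hs hY hT)
    have hWf : Pool.Agent.helper52.FC.cmp Z (Pool.Agent.helper52.FC.cmp Y T) f = -T f := by
      rw [cmp_pos (hZ0 f hf), cmp_neg, hYf]
      rw [hYf]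
      simpa using hsT f
    have hWe : Pool.Agent.helper52.FC.cmp Z (Pool.Agent.helper52.FC.cmp Y T) e = T e := by
      rw [cmp_pos hZe, cmp_pos hYe]
    have hWoff : ∀ g, T g = R' g → Pool.Agent.helper52.FC.cmp Z (Pool.Agent.helper52.FC.cmp Y T) g = T g := by
      intro g hg
      have h1 := hZoff g hg
      rw [cmp_neg (by rw [h1]; exact hsT g), h1]
    have hmem : Pool.Agent.helper52.FC.cmp Z (Pool.Agent.helper52.FC.cmp Y T) ∈ A := by
      refine ⟨hW, fun h1 => ?_, fun g hg => hWoff g (hR'R g hg).symm⟩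
      have h2 := congrFun h1 f
      rw [hWf] at h2
      exact hsT f (sneg h2.symm rfl)
    exact hcard _ hmem (fun g hg hg' => hg (hWoff g hg').symm) e he hWe.symm

end Pool.Agent.helper66.SL
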