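import Pool.Agent.helper66.SL.SpecC

set_option autoImplicit false

namespace Pool.Agent.helper66.SL

open Pool.Agent.helper52.FC

theorem RFI_two (hTRI : TRI) {E : Type} [Finite E] {L : Set (E → SignType)} (hL : R3 L)
    {S : E → SignType} (hS : IsTope L S) {e : E} (he : Wall L S e) :
    ∃ u w, Cork L u 2 ∧ Cork L w 2 ∧ Le u S ∧ Le w S ∧ u e = 0 ∧ w e = 0 ∧ u ≠ w ∧
      ∀ q, Cork L q 2 → Le q S → q e = 0 → q = u ∨ q = w := by
  obtain ⟨i, j, k, P, Q, R, hij, hik, hjk, hW, hP, hQ, hR, lP, lQ, lR, Pi, Pj, Pk, Qi, Qj, Qk, Ri, Rj,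
    Rk, hall⟩ := hTRI E L hL S hS
  rcases (hW e).1 he with rfl | rfl | rfl
  · refine ⟨Q, R, hQ, hR, lQ, lR, Qi, Ri, fun h => Qj (by rw [h]; exact Rj), fun q hq hqS hqe => ?_⟩
    rcases hall q hq hqS with rfl | rfl | rfl
    · exact absurd hqe Pi
    · exact Or.inl rfl
    · exact Or.inr rfl
  · refine ⟨P, R, hP, hR, lP, lR, Pj, Rj, fun h => Pi (by rw [h]; exact Ri), fun q hq hqS hqe => ?_⟩
    rcases hall q hq hqS with rfl | rfl | rfl
    · exact Or.inl rfl
    · exact absurd hqe Qj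
    · exact Or.inr rfl
  · refine ⟨P, Q, hP, hQ, lP, lQ, Pk, Qk, fun h => Pi (by rw [h]; exact Qi), fun q hq hqS hqe => ?_⟩
    rcases hall q hq hqS with rfl | rfl | rfl
    · exact Or.inl rfl
    · exact Or.inr rfl
    · exact absurd hqe Rk

theorem RFI_other (hTRI : TRI) {E : Type} [Finite E] {L : Set (E → SignType)} (hL : R3 L)
    {p : E → SignType} (hp : Cork L p 2) {S : E → SignType} (hS : IsTope L S) (hpS : Le p S) {e : E}
    (he : Wall L S e) (hpe : p e = 0) : ∃ w, Nb L e p w ∧ (Tr L p S e ↔ Vx L 3 w) := by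
  obtain ⟨u, w, hu, hw, lu, lw, ue, we, huw, hall⟩ := RFI_two hTRI hL hS he
  rcases hall p hp hpS hpe with rfl | rfl
  · refine ⟨w, ⟨hp, hw, hpe, we, huw, S, hS, he, hpS, lw⟩, ?_, fun h => ⟨w, h, lw, we, huw.symm⟩⟩
    rintro ⟨q, hq, hqS, hqe, hqp⟩
    rcases hall q hq.1 hqS hqe with rfl | rfl
    · exact absurd rfl hqp
    · exact hq
  · refine ⟨u, ⟨hp, hu, hpe, ue, huw.symm, S, hS, he, hpS, lu⟩, ?_, fun h => ⟨u, h, lu, ue, huw⟩⟩
    rintro ⟨q, hq, hqS, hqe, hqp⟩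
    rcases hall q hq.1 hqS hqe with rfl | rfl
    · exact hq
    · exact absurd rfl hqp

/-- The two walls in the zero set and the third wall. -/
theorem RFI_walls (hTRI : TRI) {E : Type} [Finite E] {L : Set (E → SignType)} (hL : R3 L)
    {p : E → SignType} (hp : Cork L p 2) {T : E → SignType} (hT : IsTope L T) (hpT : Le p T) :
    ∃ x y z, x ≠ y ∧ Wall L T x ∧ Wall L T y ∧ Wall L T z ∧ p x = 0 ∧ p y = 0 ∧ p z ≠ 0 ∧
      ∀ g, Wall L T g → p g = 0 → g = x ∨ g = y := by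
  obtain ⟨i, j, k, P, Q, R, hij, hik, hjk, hW, hP, hQ, hR, lP, lQ, lR, Pi, Pj, Pk, Qi, Qj, Qk, Ri, Rj,
    Rk, hall⟩ := hTRI E L hL T hT
  have wi := (hW i).2 (Or.inl rfl)
  have wj := (hW j).2 (Or.inr (Or.inl rfl))
  have wk := (hW k).2 (Or.inr (Or.inr rfl))
  rcases hall p hp hpT with rfl | rfl | rfl
  · refine ⟨j, k, i, hjk, wj, wk, wi, Pj, Pk, Pi, fun g hg hpg => ?_⟩
    rcases (hW g).1 hg with rfl | rfl | rfl
    · exact absurd hpg Pi
    · exact Or.inl rfl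
    · exact Or.inr rfl
  · refine ⟨i, k, j, hik, wi, wk, wj, Qi, Qk, Qj, fun g hg hpg => ?_⟩
    rcases (hW g).1 hg with rfl | rfl | rfl
    · exact Or.inl rfl
    · exact absurd hpg Qj
    · exact Or.inr rfl
  · refine ⟨i, j, k, hij, wi, wj, wk, Ri, Rj, Rk, fun g hg hpg => ?_⟩
    rcases (hW g).1 hg with rfl | rfl | rfl
    · exact Or.inl rfl
    · exact Or.inr rfl
    · exact absurd hpg Rk

theorem RFI_proof (hSZZ : SZZ) (hCDC : CDC) (hTRI : TRI) (hEUL : EUL) (hIN1 : IN1) (hIN2 : IN2)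
    (hCIE : CIE) (hCIA : CIA) (hCEV : CEV) (hCDS : CDS) (hCKM : CKM) (hNUM : NUM) (hLO7 : LO7)
    (hEXO : EXO) (hCYS : CYS) (hCYA : CYA) (hHFP : HFP) : RFI := by
  intro E _ L hL p hp T hT hpT a0
  classical
  have := Fintype.ofFinite E
  have hcd := hCDC E L hL.good hL.cl
  have hsz := hSZZ E L hL.good hL.cl
  obtain ⟨x, y, z, hxy, wx, wy, wz, px, py, pz, hxyz⟩ := RFI_walls hTRI hL hp hT hpT
  obtain ⟨f, hf, fx, fy⟩ := hcd.ext p hp T hT hpT x y hxy wx wy px py (a0 x) (a0 y)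
  have hfa : ∀ g, Wall L T g → p g = 0 → f g = a0 g := by
    intro g hg hpg
    rcases hxyz g hg hpg with rfl | rfl
    · exact fx
    · exact fy
  -- the numbers
  have h3 : 3 ≤ Fintype.card E := by
    have h1 : ({x, y, z} : Finset E).card = 3 := by
      refine Finset.card_eq_three.2 ⟨x, y, z, hxy, ?_, ?_, rfl⟩
      · rintro rfl
        exact pz px
      · rintro rfl
        exact pz py
    rw [← h1]
    exact Finset.card_le_univ _
  have hnat : Nat.card E = Fintype.card E := Nat.card_eq_fintype_card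
  have hA0 : ∀ e, Av L e = 0 → 3 ≤ (Ds L e).ncard := by
    intro e he
    refine hCKM E L hL e fun q hq hqe => ?_
    rcases (hsz q hq).1 with h | h
    · exfalso
      have h1 : {p | Vx L 2 p ∧ p e = 0} = ∅ := (Set.ncard_eq_zero (Set.toFinite _)).1 he
      have h2 : q ∈ {p | Vx L 2 p ∧ p e = 0} := ⟨⟨hq, h⟩, hqe⟩
      rw [h1] at h2
      exact h2
    · exact ⟨hq, h⟩
  have hnum := hNUM E (Av L) (Bv L) (fun e => (Ds L e).ncard) _ _ _ _ h3 (hEUL E L hL) (hIN1 E L hL)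
    (hIN2 E L hL) (fun e => by rw [← hnat]; exact hCIE E L hL e) (fun e => ((hCEV E L hL).2 e).1)
    (fun e => ((hCEV E L hL).2 e).2) (hCEV E L hL).1 (hCIA E L hL).1 (hCIA E L hL).2 (hCDS E L hL) hA0
  -- the sums around the vertex
  have hc : ∃ c : (E → SignType) → ℝ, c T = (T z : ℝ) * a0 z ∧ ∀ S, IsTope L S → Le p S → ∀ e,
      Wall L S e → p e = 0 → (Tr L p S e → c (fl S e) = c S + (S e : ℝ) * f e) ∧
        (¬ Tr L p S e → c (fl S e) = c S) := by
    by_cases hcase : Fintype.card E = 6 ∧ Vx L 3 p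
    · obtain ⟨h6, hp3⟩ := hcase
      have hAB : ∀ e, Av L e = 2 ∧ Bv L e = 4 := by
        rcases hnum with h | h | h | h
        · omega
        · omega
        · exact h.2
        · omega
      refine hCYA E L hL p hp3 f hf T hT hpT (fun S hS hpS a b hab wa wb pa pb => ?_) _
      exact hEXO E L hL (by omega) p hp3 (fun e _ => hAB e) S hS hpS a b hab wa wb pa pb
    · refine hCYS E L hL p hp f T hT hpT (fun S S' hS hpS hS' hpS' e hpe we we' => ?_) _
      obtain ⟨w, hw, hwT⟩ := RFI_other hTRI hL hp hS hpS we hpe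
      obtain ⟨w', hw', hwT'⟩ := RFI_other hTRI hL hp hS' hpS' we' hpe
      rw [hwT, hwT']
      refine hLO7 E L hL p e hp hpe ?_ w w' hw hw'
      rcases hnum with h | h | h | h
      · exact Or.inl (h.2 e).2
      · rcases h.2 e with h' | h'
        · exact Or.inl h'.2
        · exact Or.inr (Or.inr (Or.inr (Or.inl h')))
      · have h2 : Vx L 2 p := by
          rcases (hsz p hp).1 with h' | h'
          · exact ⟨hp, h'⟩
          · exact absurd ⟨h.1, ⟨hp, h'⟩⟩ hcase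
        exact Or.inr (Or.inr (Or.inl ⟨(h.2 e).1, h2⟩))
      · rcases h.2 e with h' | h'
        · exact Or.inr (Or.inl h'.1)
        · exact Or.inr (Or.inr (Or.inr (Or.inr ⟨by rw [hnat]; exact h.1, h'⟩)))
  obtain ⟨c, hcT, hc⟩ := hc
  exact hHFP E L hL p hp T hT hpT z wz pz a0 f hf hfa c hcT hc

end Pool.Agent.helper66.SL
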