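import Pool.Agent.helper66.SL.SpecA

set_option autoImplicit false

namespace Pool.Agent.helper66.SL

open Pool.Agent.helper52.FC

theorem SAM_cmp {E : Type} {L : Set (E → SignType)} (hL : IsOM L) (hs : IsSimple L)
    {X T : E → SignType} (hX : X ∈ L) (hT : IsTope L T) :
    IsTope L (Pool.Agent.helper52.FC.cmp X T) := by
  refine tope_of (hL.comp X hX T hT.1) fun g => ?_
  by_cases hg : X g = 0
  · rw [cmp_pos hg]
    exact tope_supp hL hs hT g
  · rwa [cmp_neg hg]

theorem SAM_fl {E : Type} {Z S : E → SignType} (h : Le Z S) {e : E} (he : Z e = 0) : Le Z (fl S e) := by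
  intro g
  by_cases hg : g = e
  · subst hg
    exact Or.inl he
  · rw [fl_ne _ hg]
    exact h g

theorem SAM_wall {E : Type} {L : Set (E → SignType)} {S : E → SignType} (hS : IsTope L S) (e : E) :
    Wall L (fl S e) e := by
  unfold Wall
  rw [fl_fl]
  exact hS

theorem SAM_proof (hGEO : GEO) (hXJW : XJW) (hTRU : TRU) : SAM := by
  intro E _ L F hL hF hHF B T hB hT i j hij hi hj hiB hjB a ha y y' hy hy'
  have hom := hL.om
  have hs := hL.simple
  have sT := tope_supp hom hs hT
  have sB := tope_supp hom hs hB
  obtain ⟨Z, hZ, hZT, hZw⟩ := hXJW E L hL T hT {i, j} (by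
    rintro e (rfl | rfl)
    · exact hi
    · exact hj)
  rw [Set.ncard_pair hij] at hZ
  have hZi : Z i = 0 := (hZw i hi).2 (Or.inl rfl)
  have hZj : Z j = 0 := (hZw j hj).2 (Or.inr rfl)
  -- T is opposite to B on the zero set of Z
  have hopp : ∀ g, Z g = 0 → T g = -B g := by
    set R := Pool.Agent.helper52.FC.cmp Z (fun g => -B g) with hR
    have hRt : IsTope L R := SAM_cmp hom hs hZ.1 (tope_neg hom hs hB)
    have hRT : T = R := by
      by_contra hne
      obtain ⟨e, he, heR⟩ := hGEO E L hom hs T R hT hRt hne
      have hZe : Z e = 0 := by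
        by_contra h1
        have h2 : R e = Z e := cmp_neg h1
        rcases hZT e with h3 | h3
        · exact h1 h3
        · exact heR (by rw [h2, h3])
      have h4 : R e = -B e := cmp_pos hZe
      rcases (hZw e he).1 hZe with rfl | h5
      · exact heR (by rw [h4]; exact sne (sT _) (sB _) hiB)
      · have h6 : e = j := h5
        subst h6
        exact heR (by rw [h4]; exact sne (sT _) (sB _) hjB)
    intro g hg
    rw [hRT]
    exact cmp_pos hg
  -- distances
  have hdist : ∀ S, IsTope L S → Le Z S → S ≠ T → dist B S < dist B T := by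
    intro S hS hZS hne
    refine Set.ncard_lt_ncard ?_ (Set.toFinite _)
    refine ⟨fun g hg => ?_, fun hsub => ?_⟩
    · have hg' : B g ≠ S g := hg
      change B g ≠ T g
      by_cases h1 : Z g = 0
      · rw [hopp g h1]
        intro h2
        exact sB g (sneg h2 rfl)
      · rcases hZS g with h2 | h2
        · exact absurd h2 h1
        · rcases hZT g with h3 | h3
          · exact absurd h3 h1
          · rw [← h3, h2]
            exact hg'
    · apply hne
      funext g
      by_cases h1 : Z g = 0
      · have h2 : g ∈ {e | B e ≠ T e} := by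
          change B g ≠ T g
          rw [hopp g h1]
          intro h2
          exact sB g (sneg h2 rfl)
        have h3 : B g ≠ S g := hsub h2
        rw [hopp g h1]
        exact sne (tope_supp hom hs hS g) (sB g) (Ne.symm h3)
      · rcases hZS g with h2 | h2
        · exact absurd h2 h1
        · rcases hZT g with h3 | h3
          · exact absurd h3 h1
          · rw [← h2, h3]
  set G := Pool.Agent.helper52.FC.cmp Z B with hG
  have hGt : IsTope L G := SAM_cmp hom hs hZ.1 hB
  have hZG : Le Z G := le_cmp Z B
  obtain ⟨b, hb0, hb⟩ := hHF Z hZ G hGt hZG (a G)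
  -- agreement on the star
  have hagree : ∀ n : ℕ, ∀ S, IsTope L S → Le Z S → S ≠ T → dist G S = n →
      ∀ g, Wall L S g → b S g = a S g := by
    intro n
    induction n using Nat.strong_induction_on with
    | _ n ih =>
      intro S hS hZS hne hd
      by_cases hSG : S = G
      · subst hSG
        exact hb0
      · obtain ⟨l, hl, hlG⟩ := hGEO E L hom hs S G hS hGt hSG
        have hZl : Z l = 0 := by
          by_contra h1
          rcases hZS l with h2 | h2
          · exact h1 h2
          · exact hlG (by rw [hG, cmp_neg h1, h2])
        have hGl : G l = B l := cmp_pos hZl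
        have hSl : S l = -B l := sne (tope_supp hom hs hS l) (sB l) (by rw [← hGl]; exact hlG)
        set S' := fl S l with hS'
        have hS't : IsTope L S' := hl
        have hZS' : Le Z S' := SAM_fl hZS hZl
        have hne' : S' ≠ T := by
          intro h1
          have h2 := congrFun h1 l
          rw [hS', fl_same, hSl, hopp l hZl, neg_neg] at h2
          exact sB l (sneg h2 rfl)
        have hdlt : dist G S' < n := by
          rw [← hd]
          refine Set.ncard_lt_ncard ?_ (Set.toFinite _)
          refine ⟨fun g hg => ?_, fun hsub => ?_⟩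
          · have hg' : G g ≠ S' g := hg
            change G g ≠ S g
            by_cases h1 : g = l
            · subst h1
              exact Ne.symm hlG
            · rwa [hS', fl_ne _ h1] at hg'
          · have h1 : l ∈ {e | G e ≠ S e} := Ne.symm hlG
            have h2 : G l ≠ S' l := hsub h1
            apply h2
            rw [hS', fl_same, hSl, hGl, neg_neg]
        have h1 := ih _ hdlt S' hS't hZS' hne' rfl
        have hw : Wall L S' l := SAM_wall hS l
        have c1 := hb S' hS't hZS' l hw hZl
        have c2 := ha S' hS't (hdist S' hS't hZS' hne') l hw (by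
          rw [hS', fl_fl]
          exact hdist S hS hZS hne)
        have h2 := hTRU E L F hL hF S' hS't l hw _ _ _ _ c1 c2 h1
        rw [hS', fl_fl] at h2
        exact h2
  -- the two transports
  have hfin : ∀ k, Wall L T k → Z k = 0 → ∀ z : E → ℝ, Comp L F (fl T k) k (a (fl T k)) z →
      ∀ g, Wall L T g → z g = b T g := by
    intro k hk hZk z hz
    have hZ' : Le Z (fl T k) := SAM_fl hZT hZk
    have hne : fl T k ≠ T := by
      intro h1
      have h2 := congrFun h1 k
      rw [fl_same] at h2
      exact sT k (sneg h2.symm rfl)
    have h1 := hagree _ (fl T k) hk hZ' hne rfl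
    have c1 := hb (fl T k) hk hZ' k (SAM_wall hT k) hZk
    have h2 := hTRU E L F hL hF (fl T k) hk k (SAM_wall hT k) _ _ _ _ hz c1 (fun g hg => (h1 g hg).symm)
    rw [fl_fl] at h2
    exact h2
  intro g hg
  rw [hfin i hi hZi y hy g hg, hfin j hj hZj y' hy' g hg]

end Pool.Agent.helper66.SL
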