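import Pool.Agent.helper66.SL.SpecA

set_option autoImplicit false

namespace Pool.Agent.helper66.SL

open Pool.Agent.helper52.FC

theorem WFZ_back {E : Type} {L : Set (E → SignType)} (hL : IsOM L) (hs : IsSimple L)
    {T : E → SignType} (hT : IsTope L T) {e : E} (h : fz T e ∈ L) : Wall L T e := by
  have h1 : fl T e = cmp (fz T e) (fun g => -T g) := by
    funext g
    by_cases hg : g = e
    · subst hg
      rw [fl_same, cmp_pos (fz_same T g)]
    · have h2 : fz T e g ≠ 0 := by
        rw [fz_ne _ hg]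
        exact tope_supp hL hs hT g
      rw [fl_ne _ hg, cmp_neg h2, fz_ne _ hg]
  have h2 : fl T e ∈ L := by
    rw [h1]
    exact hL.comp _ h _ (hL.neg T hT.1)
  refine tope_of h2 fun g => ?_
  by_cases hg : g = e
  · subst hg
    rw [fl_same]
    have := tope_supp hL hs hT g
    simpa using this
  · rw [fl_ne _ hg]
    exact tope_supp hL hs hT g

theorem WFZ_proof : WFZ := by
  intro E _ L hL hs T hT e
  refine ⟨fun h => ?_, WFZ_back hL hs hT⟩
  have h0 := tope_supp hL hs hT e
  obtain ⟨Z, hZ, hZe, hZ'⟩ := hL.elim T hT.1 (fl T e) h.1 e ⟨by rw [fl_same]; simp, h0⟩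
  have h1 : Z = fz T e := by
    funext g
    by_cases hg : g = e
    · subst hg
      rw [hZe, fz_same]
    · have h2 := tope_supp hL hs hT g
      rw [fz_ne _ hg, hZ' g, cmp_neg h2]
      rintro ⟨h3, -⟩
      rw [fl_ne _ hg] at h3
      exact h2 (sneg h3 rfl)
  rwa [← h1]

end Pool.Agent.helper66.SL
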