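import Pool.Agent.helper10.SL.EWD
import Pool.Agent.helper10.SL.REA
import Pool.Agent.helper10.SL.STI
import Pool.Agent.helper16.SL.CIE
import Pool.Agent.helper16.SL.NAD
import Pool.Agent.helper16.SL.STC
import Pool.Agent.helper16.SL.UZC
import Pool.Agent.helper16.SL.ZO3
import Pool.Agent.helper2.SL.EUL
import Pool.Agent.helper25.SL.CDS
import Pool.Agent.helper25.SL.LCK
import Pool.Agent.helper25.SL.LCL
import Pool.Agent.helper25.SL.LTP
import Pool.Agent.helper25.SL.LWL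
import Pool.Agent.helper32.SL.CKM
import Pool.Agent.helper32.SL.LO6
import Pool.Agent.helper33.SL.BIJ
import Pool.Agent.helper33.SL.CHN
import Pool.Agent.helper33.SL.GAT
import Pool.Agent.helper33.SL.SZZ
import Pool.Agent.helper34.SL.HHF
import Pool.Agent.helper35.SL.CRK
import Pool.Agent.helper35.SL.PAT
import Pool.Agent.helper40.SL.LGD
import Pool.Agent.helper41.SL.TRU
import Pool.Agent.helper44.SL.CPR
import Pool.Agent.helper46.SL.IN1
import Pool.Agent.helper46.SL.SGN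
import Pool.Agent.helper46.SL.TRI
import Pool.Agent.helper48.SL.LO7
import Pool.Agent.helper48.SL.ZO2
import Pool.Agent.helper52.SL.CIA
import Pool.Agent.helper52.SL.XJW
import Pool.Agent.helper54.SL.TRE
import Pool.Agent.helper57.SL.LH3
import Pool.Agent.helper57.SL.UH3
import Pool.Agent.helper63.SL.COR
import Pool.Agent.helper63.SL.LFC
import Pool.Agent.helper63.SL.UCD
import Pool.Agent.helper63.SL.ULC
import Pool.Agent.helper66.SL.BAL
import Pool.Agent.helper66.SL.GEO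
import Pool.Agent.helper66.SL.RFI
import Pool.Agent.helper66.SL.SAM
import Pool.Agent.helper66.SL.WFZ
import Pool.Agent.helper67.SL.CYA
import Pool.Agent.helper67.SL.CYS
import Pool.Agent.helper67.SL.PEX
import Pool.Agent.helper72.SL.EXO
import Pool.Agent.helper72.SL.PHI
import Pool.Agent.helper74.SL.UEX
import Pool.Agent.helper79.SL.HFP
import Pool.Agent.helper8.SL.NUM
import Pool.Agent.helper88.SL.NBC
import Pool.Agent.helper90.SL.CLO
import Pool.Agent.helper90.SL.XUQ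
import Pool.Agent.helper99.SL.CDC
import Pool.Agent.helper99.SL.CEV
import Pool.Agent.helper99.SL.IN2
import Pool.Agent.helper99.SL.PUN
import Pool.Agent.helper99.SL.ZO1
import Pool.Agent.helper66.SL.AsmCore

/-!
# Simplicial oriented matroids (MP_ad2b66_co): all rows
-/

set_option autoImplicit false

namespace Pool.Agent.helper66.SL

open Pool.Agent.helper52.FC

theorem m_WFZ : WFZ := WFZ_proof 
theorem m_GEO : GEO := GEO_proof 
theorem m_BIJ : BIJ := BIJ_proof m_WFZ m_GEO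
theorem m_STI : STI := STI_proof m_GEO
theorem m_CRK : CRK := CRK_proof m_WFZ m_STI m_BIJ
theorem m_CLO : CLO := CLO_proof m_GEO
theorem m_XJW : XJW := XJW_proof m_BIJ m_CRK
theorem m_XUQ : XUQ := XUQ_proof m_BIJ
theorem m_GAT : GAT := GAT_proof 
theorem m_CHN : CHN := CHN_proof m_WFZ m_GEO m_XJW
theorem m_PAT : PAT := PAT_proof 
theorem m_SZZ : SZZ := SZZ_proof m_CLO
theorem m_TRU : TRU := TRU_proof m_XJW
theorem m_TRE : TRE := TRE_proof m_XJW m_XUQ
theorem m_PHI : PHI := PHI_proof m_STI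
theorem m_SAM : SAM := SAM_proof m_GEO m_XJW m_TRU
theorem m_BAL : BAL := BAL_proof m_GEO m_TRE m_SAM
theorem m_EWD : EWD := EWD_proof m_CHN m_PHI
theorem m_COR : COR := COR_proof m_GAT m_PHI m_BAL m_EWD
theorem m_SGN : SGN := SGN_proof m_GEO m_XJW
theorem m_REA : REA := REA_proof m_SGN
theorem m_HHF : HHF := HHF_proof m_BIJ m_XJW m_XUQ
theorem m_CDC : CDC := CDC_proof m_STI m_PAT m_SZZ
theorem m_LTP : LTP := LTP_proof 
theorem m_LWL : LWL := LWL_proof m_LTP
theorem m_LCK : LCK := LCK_proof m_LTP m_LWL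
theorem m_LGD : LGD := LGD_proof m_BIJ m_LTP
theorem m_LCL : LCL := LCL_proof 
theorem m_LFC : LFC := LFC_proof m_LTP m_LWL
theorem m_LH3 : LH3 := LH3_proof m_LTP m_LWL m_LCK m_LGD m_LCL m_LFC
theorem m_UZC : UZC := UZC_proof m_CLO
theorem m_UEX : UEX := UEX_proof m_BIJ
theorem m_UCD : UCD := UCD_proof m_GEO m_CLO m_UZC m_UEX
theorem m_UH3 : UH3 := UH3_proof m_UZC m_UEX
theorem m_ULC : ULC := ULC_proof 
theorem m_ZO1 : ZO1 := ZO1_proof 
theorem m_ZO2 : ZO2 := ZO2_proof m_WFZ m_GEO m_ZO1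
theorem m_ZO3 : ZO3 := ZO3_proof m_ZO1 m_ZO2
theorem m_TRI : TRI := TRI_proof m_XJW m_XUQ
theorem m_PEX : PEX := PEX_proof m_WFZ m_CHN
theorem m_PUN : PUN := PUN_proof m_CRK m_CLO m_XUQ m_PAT m_SZZ
theorem m_STC : STC := STC_proof m_PAT m_SZZ
theorem m_EUL : EUL := EUL_proof m_GEO m_CRK m_XJW m_XUQ m_SZZ
theorem m_IN1 : IN1 := IN1_proof m_WFZ m_CRK m_XUQ
theorem m_IN2 : IN2 := IN2_proof m_SZZ m_TRI m_STC
theorem m_CIE : CIE := CIE_proof m_SZZ m_PEX m_PUN
theorem m_CIA : CIA := CIA_proof 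
theorem m_CEV : CEV := CEV_proof 
theorem m_CDS : CDS := CDS_proof m_TRI m_STC
theorem m_CPR : CPR := CPR_proof m_PAT m_SZZ m_TRI m_PUN m_STC
theorem m_CKM : CKM := CKM_proof m_CHN m_PAT m_SZZ m_TRI m_PEX m_PUN m_CPR
theorem m_NUM : NUM := NUM_proof 
theorem m_NAD : NAD := NAD_proof m_SZZ m_TRI m_PUN
theorem m_NBC : NBC := NBC_proof m_WFZ m_GEO m_GAT m_PAT m_SZZ m_TRI
theorem m_LO7 : LO7 := LO7_proof m_SZZ m_NAD m_NBC
theorem m_LO6 : LO6 := LO6_proof m_SZZ m_NBC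
theorem m_EXO : EXO := EXO_proof m_SZZ m_TRI m_NAD m_LO6
theorem m_CYS : CYS := CYS_proof 
theorem m_CYA : CYA := CYA_proof m_PAT m_SZZ
theorem m_HFP : HFP := HFP_proof m_XUQ m_PAT m_SZZ m_PUN m_CDC
theorem m_RFI : RFI := RFI_proof m_SZZ m_CDC m_TRI m_EUL m_IN1 m_IN2 m_CIE m_CIA m_CEV m_CDS m_CKM m_NUM m_LO7 m_EXO m_CYS m_CYA m_HFP

/-- Theorem C. -/
theorem main_C (E : Type) [Finite E] (L : Set (E → SignType)) (hL : Good L)
    (hc : ∀ a b, a ≠ b → {g | Cl2 L a b g}.ncard ≤ 3) :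
    ∃ (d : ℕ) (v : E → EuclideanSpace ℝ (Fin d)), L = arr v ∧
      ∃ s : Finset (EuclideanSpace ℝ (Fin d)),
        Nonempty (topeGraph L ≃g skeleton (convexHull ℝ (s : Set (EuclideanSpace ℝ (Fin d))))) :=
  asm_C' m_CDC m_COR m_RFI m_LH3 m_HHF m_REA m_ZO3 E L hL hc

/-- The polytope of a realization. -/
theorem main_poly (E : Type) [Finite E] (L : Set (E → SignType)) (hL : Good L) {d : ℕ}
    (v : E → EuclideanSpace ℝ (Fin d)) (hv : L = arr v) : ∃ s : Finset (EuclideanSpace ℝ (Fin d)),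
      Nonempty (topeGraph L ≃g skeleton (convexHull ℝ (s : Set (EuclideanSpace ℝ (Fin d))))) :=
  asm_poly m_ZO3 E L hL v hv

/-- Theorem LG. -/
theorem main_LG (E : Type) [Finite E] (L : Set (E → SignType)) (hL : Good L) :
    (∃ (d : ℕ) (v : E → EuclideanSpace ℝ (Fin d)), L = arr v) ↔
      ∃ u : E → E → E → E → EuclideanSpace ℝ (Fin 3), Local L u :=
  asm_LG m_UCD m_UH3 m_ULC m_COR m_HHF m_REA E L hL

end Pool.Agent.helper66.SL
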