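import Pool.Agent.helper22.SL.KLL
import Pool.Agent.helper35.SL.KST
import Pool.Agent.helper37.SL.KIN
import Pool.Agent.helper46.SL.KSR
import Pool.Agent.helper49.SL.KFI
import Pool.Agent.helper52.SL.KTC
import Pool.Agent.helper71.SL.KF1
import Pool.Agent.helper78.SL.KF3
import Pool.Agent.helper79.SL.KGN
import Pool.Agent.helper8.SL.KF2
import Pool.Agent.helper8.SL.KF4
import Pool.Agent.helper89.SL.KCP
import Pool.Agent.helper97.SL.KCL
import Pool.Agent.helper66.SL.Main

/-!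
# Simplicial oriented matroids (MP_ad2b66_co): all rows
-/

set_option autoImplicit false

namespace Pool.Agent.helper66.SL

open Pool.Agent.helper52.FC

theorem m_KTC : KTC := KTC_proof 
theorem m_KIN : KIN := KIN_proof m_KTC
theorem m_KF1 : KF1 := KF1_proof m_KTC m_KIN
theorem m_KF2 : KF2 := KF2_proof m_KTC
theorem m_KF3 : KF3 := KF3_proof 
theorem m_KF4 : KF4 := KF4_proof m_KTC m_KIN
theorem m_KGN : KGN := KGN_proof m_KF3
theorem m_KCP : KCP := KCP_proof m_KTC m_KF1 m_KF2 m_KF3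
theorem m_KCL : KCL := KCL_proof m_GEO m_XJW m_XUQ
theorem m_KLL : KLL := KLL_proof m_XUQ
theorem m_KSR : KSR := KSR_proof m_KF1 m_KF2 m_KF3 m_KGN m_KCP m_KCL m_KLL
theorem m_KST : KST := KST_proof m_STI m_CRK m_KF1 m_KF4 m_KSR
theorem m_KFI : KFI := KFI_proof m_KF3 m_KSR m_KST

end Pool.Agent.helper66.SL
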