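import Pool.Agent.helper66.SL.Defs

/-!
# Simplicial oriented matroids (MP_ad2b66_co): rows of the blocks A (oriented matroids) and B (transport)

Paper proof: /team-store/MP_ad2b66_SL_helper66.md (checked by helper52). `z(X)` is the zero set of `X`,
`star(X)` the set of the topes `T` with `Le X T`, `o` is the composition `cmp`.
All definitions: `Pool/Agent/helper66/SL/Defs.lean`. Library: `Pool/Agent/helper52/FC/OM.lean`
(`tope_of`: a covector without zero is a tope; `tope_supp`: topes have no zero; `recon_eq`, `sep`, ...).
-/

set_option autoImplicit false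

namespace Pool.Agent.helper66.SL

open Pool.Agent.helper52.FC

/-! ## Block A -/

/-- WFZ (short). Walls are facets. Proof: if `T`, `fl T e` are topes, eliminate `e` between them
(`T e = -(fl T e) e`, not `0`): `Z` with `Z e = 0` and `Z f = cmp T (fl T e) f = T f` for `f ≠ e` (there
`T f = (fl T e) f ≠ 0`, so `f` is not separated), so `Z = fz T e`. Conversely
`fl T e = cmp (fz T e) (-T)` is in `L` and has no zero (`tope_of`, `tope_supp`). -/
def WFZ : Prop := ∀ (E : Type) [Finite E] (L : Set (E → SignType)), IsOM L → IsSimple L →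
  ∀ T, IsTope L T → ∀ e, (Wall L T e ↔ fz T e ∈ L)

/-- GEO (medium). Two distinct topes are separated by a wall of the first one. Proof: among the topes
`R' ≠ T` with `R' f = T f` whenever `R f = T f` (for example `R`) choose one with
`D' = {f | T f ≠ R' f}` of least cardinality. If `D' = {e}` then `R' = fl T e`, so `e` is a wall, and
`T e ≠ R e` (otherwise `R' e = T e`). Suppose that `e ≠ f` are in `D'`. Eliminate `e` between `T` and `R'`:
`Z` in `L` with `Z e = 0`, `Z g = T g` for `g` not in `D'`. `Z o T` is a tope which agrees with `T` off `D'`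
and at `e`, so it has fewer differences than `R'` and must be `T`; `Z o R'` is a tope, different from `T` at
`e`, with differences inside `D'`, so by minimality its set of differences is `D'` and it is `R'`. Hence for
`g` in `D'`: `Z g` is `0` or `T g`, and `0` or `R' g = -T g`, so `Z g = 0`. By `sep` (helper52) there is `Y`
in `L` with `Y e = 0`, `Y f ≠ 0`; replacing `Y` by its negative, `Y f = -T f`. The tope `Z o (Y o T)` agrees
with `T` off `D'` and at `e`, and differs from `T` at `f`: contradiction to minimality. -/
def GEO : Prop := ∀ (E : Type) [Finite E] (L : Set (E → SignType)), IsOM L → IsSimple L →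
  ∀ T R, IsTope L T → IsTope L R → T ≠ R → ∃ e, Wall L T e ∧ T e ≠ R e

/-- BIJ (medium). The covectors below a tope `T` correspond to the sets of walls of `T`. Proof: let `φ`
be the order isomorphism of the interval with `Set (Fin n)`. Coatoms of the interval: an `X < T` (that is
`Le X T`, `X ≠ T`) lies below some `fz T e`, `e` a wall with `X e = 0`: apply GEO to `T` and
`R = X o (-T)` (`≠ T` because `X` has a zero), so there is a wall `e` with `T e ≠ R e`, hence `X e = 0` and
`Le X (fz T e)`; `fz T e` is in `L` by WFZ. And the `fz T e`, `e` a wall, are pairwise incomparable and `≠ T`.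
So the maximal elements below `T` are exactly the `fz T e`; in `Set (Fin n)` (`φ T = univ`) they are the
complements of singletons. So there is a bijection `c : Fin n → walls of T` with
`φ (fz T (c i)) = {i}ᶜ`. For `Le X T`, `X` in `L`: `X (c i) = 0` iff `Le X (fz T (c i))` iff `φ X ⊆ {i}ᶜ` iff
`i ∉ φ X`. Both claims follow. -/
def BIJ : Prop := ∀ (E : Type) [Finite E] (L : Set (E → SignType)), Good L → ∀ T, IsTope L T →
  (∀ J : Set E, (∀ e ∈ J, Wall L T e) → ∃ X ∈ L, Le X T ∧ ∀ e, Wall L T e → (X e = 0 ↔ e ∈ J)) ∧
  ∀ X ∈ L, ∀ Y ∈ L, Le X T → Le Y T → (∀ e, Wall L T e → Y e = 0 → X e = 0) → Le X Y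

/-- STI (short-medium). Induction in the star of a covector. Proof: induction on `dist T R`. If `T = R`
done. Otherwise GEO gives a wall `e` of `T` with `T e ≠ R e`; as `T`, `R` agree with `X` off `z(X)`, `X e = 0`;
`fl T e` is a tope of the star, satisfies `Q`, and is closer to `R`. -/
def STI : Prop := ∀ (E : Type) [Finite E] (L : Set (E → SignType)), IsOM L → IsSimple L →
  ∀ X ∈ L, ∀ Q : (E → SignType) → Prop, ∀ T, IsTope L T → Le X T → Q T →
    (∀ S, IsTope L S → Le X S → Q S → ∀ e, Wall L S e → X e = 0 → Q (fl S e)) →
    ∀ R, IsTope L R → Le X R → Q R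

/-- CRK (medium). The corank is well defined. Proof: by STI it is enough that for a tope `S` of the
star of `X` and a wall `e` of `S` with `X e = 0` the numbers of walls in `z(X)` are the same for `S` and
`S' = fl S e` (`Wall L S' e` by `fl_fl`). Let `J` be the set of the walls of `S` in `z(X)`, `J'` the same for
`S'`; `e` is in both. `F = fz S e = fz S' e`. By BIJ for `S`, `Y -> {g wall of S | Y g = 0}` is a bijection from
`{Y in L | Le X Y, Le Y F}` to the sets `K` with `{e} ⊆ K ⊆ J`: there are `2^(|J|-1)` of them; the same for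
`S'`. So `|J| = |J'|`. -/
def CRK : Prop := ∀ (E : Type) [Finite E] (L : Set (E → SignType)), Good L →
  ∀ X ∈ L, ∀ T, IsTope L T → Le X T → Cork L X ({e | Wall L T e ∧ X e = 0}.ncard)

/-- CLO (short-medium). A covector `Y` which vanishes on the walls of `T` in `z(X)` vanishes on `z(X)`.
Proof: `T' = X o (Y o T)` is a tope of the star of `X` which agrees with `T` on the walls of `T` in `z(X)`
and off `z(X)`, so `T' = T` by GEO. So for `g` in `z(X)`: `Y g` is `0` or `T g`. The same for `-Y`. -/
def CLO : Prop := ∀ (E : Type) [Finite E] (L : Set (E → SignType)), IsOM L → IsSimple L →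
  ∀ X ∈ L, ∀ T, IsTope L T → Le X T → ∀ Y ∈ L, (∀ e, Wall L T e → X e = 0 → Y e = 0) →
    ∀ g, X g = 0 → Y g = 0

/-- XJW (short). From BIJ and CRK: a set `J` of walls of `T` gives a covector of corank `|J|`. -/
def XJW : Prop := ∀ (E : Type) [Finite E] (L : Set (E → SignType)), Good L → ∀ T, IsTope L T →
  ∀ J : Set E, (∀ e ∈ J, Wall L T e) →
    ∃ X, Cork L X J.ncard ∧ Le X T ∧ ∀ e, Wall L T e → (X e = 0 ↔ e ∈ J)

/-- XUQ (short). From BIJ: covectors below `T` are determined by their zeros on the walls of `T`. -/
def XUQ : Prop := ∀ (E : Type) [Finite E] (L : Set (E → SignType)), Good L → ∀ T, IsTope L T →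
  ∀ X ∈ L, ∀ Y ∈ L, Le X T → Le Y T → (∀ e, Wall L T e → (X e = 0 ↔ Y e = 0)) → X = Y

/-- GAT (short). Every element of `z(X)` is a wall of some tope of the star of `X`. Proof: by
`exists_diff` there is a tope `R` with wall `g` (`DiffAt g S R` means `S = fl R g`). `T = cmp X R`;
`fl T g = cmp X (fl R g)` is a tope. -/
def GAT : Prop := ∀ (E : Type) [Finite E] (L : Set (E → SignType)), IsOM L → IsSimple L →
  ∀ X ∈ L, ∀ g, X g = 0 → ∃ T, IsTope L T ∧ Le X T ∧ Wall L T g

/-- CHN (medium). Chains of topes with wall `e` on one side of `e`. Proof: induction on `dist S R`. If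
`S = R` done. GEO: a wall `l` of `S` with `S l ≠ R l`; `l ≠ e`. XJW for `S`, `J = {e, l}`: `Z` of corank `2`,
`Le Z S`, `Z e = Z l = 0`. `S' = cmp Z R` is a tope of the star of `Z` with `S' e = R e = S e`, and `e` is a
wall of `S'`: `fz S' e = cmp Z (fz R e)` is in `L` (WFZ). `S' ≠ S` (at `l`). So `Q S'` by the step
hypothesis, and `dist S' R < dist S R`: if `S' g ≠ R g` then `Z g ≠ 0` and `S' g = Z g = S g ≠ R g`, while `l`
is a difference of `S`, `R` and not of `S'`, `R`. -/
def CHN : Prop := ∀ (E : Type) [Finite E] (L : Set (E → SignType)), Good L →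
  ∀ (e : E) (Q : (E → SignType) → Prop) (S R : E → SignType), IsTope L S → IsTope L R →
    Wall L S e → Wall L R e → S e = R e → Q S →
    (∀ S S' Z, IsTope L S → IsTope L S' → Cork L Z 2 → Z e = 0 → Le Z S → Le Z S' → Wall L S e →
      Wall L S' e → S e = S' e → S ≠ S' → Q S → Q S') → Q R

/-- PAT (medium). The walls around a triple covector. Proof: let `T` be a tope of the star of `Z` with
walls `a`, `b`. `c` is not a wall, since exactly two elements of `z(Z)` are walls (`Cork`). Put `S = fl T a`, a
tope of the star with wall `a`; exactly one more element of `{b, c}` is a wall of `S`. Suppose `b` is a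
wall of `S`. Then `T`, `fl T a`, `fl T b`, `fl (fl T a) b` are topes of the star, and so are their opposites
`cmp Z (-.)`, which agree with `Z` off `{a, b, c}`; the opposite of `fl (fl T a) b` is `fl T c`. So `c` is a
wall of `T`: contradiction. Hence `c` is a wall of `S` and `b` is not. -/
def PAT : Prop := ∀ (E : Type) [Finite E] (L : Set (E → SignType)), Good L →
  ∀ Z, Cork L Z 2 → ∀ a b c, a ≠ b → c ≠ a → c ≠ b → Z a = 0 → Z b = 0 → Z c = 0 →
    (∀ g, Z g = 0 → g = a ∨ g = b ∨ g = c) → ∀ T, IsTope L T → Le Z T → Wall L T a → Wall L T b →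
      ¬ Wall L T c ∧ Wall L (fl T a) c ∧ ¬ Wall L (fl T a) b

/-- SZZ (short). Sizes: if two elements span at most `3` elements, the zero set of a covector of corank
`2` has `2` or `3` elements, and if it has `2`, both are walls of all topes of the star. Proof: a tope of
the star has exactly two walls `i ≠ j` in `z(Z)` (a tope of the star exists: `cmp Z T0`, `exists_tope`), so
`2 ≤ |z(Z)|`, and `z(Z) ⊆ {g | Cl2 L i j g}` by CLO. The second claim: a two element subset of a two element
set. -/
def SZZ : Prop := ∀ (E : Type) [Finite E] (L : Set (E → SignType)), Good L →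
  (∀ a b, a ≠ b → {g | Cl2 L a b g}.ncard ≤ 3) → ∀ Z, Cork L Z 2 →
    ({g | Z g = 0}.ncard = 2 ∨ {g | Z g = 0}.ncard = 3) ∧
    ({g | Z g = 0}.ncard = 2 → ∀ T, IsTope L T → Le Z T → ∀ g, Z g = 0 → Wall L T g)

/-! ## Block B: transport. `F` satisfies `CD L F`. -/

/-- TRU (short-medium). The transport is unique. Proof: let `g` be a wall of `S' = fl S e`. If `g = e`:
`y e = x e = x' e = y' e`. If `g ≠ e`: XJW for `S'`, `J = {e, g}` gives `Z` of corank `2`, `Le Z S'`,
`Z e = Z g = 0`, so `Le Z S`. `Comp` gives `f`, `f'` in `F Z`; they agree at the two walls of `S` in `z(Z)`, so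
`f - f'` vanishes on `z(Z)` by `CD.uniq`, and `y g = f g = f' g = y' g`. -/
def TRU : Prop := ∀ (E : Type) [Finite E] (L : Set (E → SignType))
  (F : (E → SignType) → Submodule ℝ (E → ℝ)), Good L → CD L F → ∀ S, IsTope L S → ∀ e, Wall L S e →
    ∀ x y x' y' : E → ℝ, Comp L F S e x y → Comp L F S e x' y' → (∀ g, Wall L S g → x g = x' g) →
      ∀ g, Wall L (fl S e) g → y g = y' g

/-- TRE (medium). The transport exists. Proof: for every wall `g ≠ e` of `S' = fl S e` there is (XJW) a
covector `Z_g` of corank `2` with `Le Z_g S'`, `Z_g e = Z_g g = 0`, also `Le Z_g S`; `e` and exactly one other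
element are walls of `S` in `z(Z_g)`, so `CD.ext` gives `f_g` in `F Z_g` which agrees with `x` on these two
walls. Put `y e = x e`, `y g = f_g g`. Let `Z` be of corank `2`, `Le Z S`, `Z e = 0`. Then `Le Z S'`, and the
walls of `S'` in `z(Z)` are `e` and one other `g`; `Z = Z_g` by XUQ for `S'`. So `f = f_g` does it. -/
def TRE : Prop := ∀ (E : Type) [Finite E] (L : Set (E → SignType))
  (F : (E → SignType) → Submodule ℝ (E → ℝ)), Good L → CD L F → ∀ S, IsTope L S → ∀ e, Wall L S e →
    ∀ x : E → ℝ, ∃ y : E → ℝ, Comp L F S e x y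

/-- PHI (short-medium). A compatible family on the star of `Z` comes from one `f` in `F Z`. Proof: the
star is nonempty; for `T` in it take `f` in `F Z` with the values of `a T` at the two walls in `z(Z)` (`CD.ext`).
STI with `Q S`: `a S g = f g` for the walls `g` of `S` in `z(Z)`. Step: `Comp` gives `f'` in `F Z` with
`a S = f'` on the walls of `S` in `z(Z)`; so `f - f'` vanishes at the two walls, hence on `z(Z)` (`CD.uniq`),
and `a (fl S e) = f' = f` on the walls of `fl S e` in `z(Z)`. -/
def PHI : Prop := ∀ (E : Type) [Finite E] (L : Set (E → SignType))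
  (F : (E → SignType) → Submodule ℝ (E → ℝ)), Good L → CD L F → ∀ Z, Cork L Z 2 →
    ∀ a : (E → SignType) → E → ℝ,
      (∀ S, IsTope L S → Le Z S → ∀ e, Wall L S e → Z e = 0 → Comp L F S e (a S) (a (fl S e))) →
      ∃ f ∈ F Z, ∀ S, IsTope L S → Le Z S → ∀ g, Wall L S g → Z g = 0 → a S g = f g

/-- SAM (medium). The step of BAL: two ways into `T` agree. `B`, `T` topes, `i ≠ j` walls of `T` which
separate `T` from `B`, `a` a family which is compatible on the topes of distance `< dist B T` from `B`. Then the
transports of `a (fl T i)` and `a (fl T j)` to `T` agree on the walls of `T`. Proof: XJW: `Z` of corank `2`,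
`Le Z T`, `Z i = Z j = 0`. `G0 = cmp Z B` is a tope of the star. The tope `cmp Z (-B)` agrees with `T` at the
walls `i`, `j` of `T` in `z(Z)`, so it is `T` (GEO): `T g = -B g` on `z(Z)`. So a tope `S ≠ T` of the star has
`dist B S < dist B T` (same contribution off `z(Z)`, `S g = B g` for some `g` in `z(Z)`). By HF there is `b`,
compatible on the star of `Z`, with `b G0 = a G0` on the walls of `G0`. Claim: for every tope `S ≠ T` of
the star, `b S = a S` on the walls of `S`. Induction on `dist G0 S`: if `S ≠ G0`, GEO gives a wall `l` of `S` with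
`S l ≠ G0 l`; `Z l = 0`, `fl S l` is in the star, closer to `G0`, and `≠ T` (`T l = -B l = -G0 l = S l`). Both
`a` and `b` are compatible at the pair `fl S l`, `S` (for `a`: both are closer to `B` than `T`;
`Comp` at `fl S l` with the wall `l`), so TRU gives the claim. Finally
`fl T i`, `fl T j` are in the star, `≠ T`; `Comp (fl T i) i (b (fl T i)) (b T)` and the given `Comp` with `y`
give `y = b T` on the walls of `T` (TRU), the same for `y'`. -/
def SAM : Prop := ∀ (E : Type) [Finite E] (L : Set (E → SignType))
  (F : (E → SignType) → Submodule ℝ (E → ℝ)), Good L → CD L F → HF L F →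
    ∀ B T, IsTope L B → IsTope L T → ∀ i j, i ≠ j → Wall L T i → Wall L T j → T i ≠ B i → T j ≠ B j →
    ∀ a : (E → SignType) → E → ℝ,
      (∀ S, IsTope L S → dist B S < dist B T → ∀ e, Wall L S e → dist B (fl S e) < dist B T →
        Comp L F S e (a S) (a (fl S e))) →
      ∀ y y' : E → ℝ, Comp L F (fl T i) i (a (fl T i)) y → Comp L F (fl T j) j (a (fl T j)) y' →
        ∀ g, Wall L T g → y g = y' g

/-- BAL (medium). Compatible families on balls. Proof: induction on `n`. `n = 0`: only `S = B`
(`dist B S ≤ 0`), nothing to check (`fl B e ≠ B`), `a B = a0`. Step: let `a` be a family for `n`. For a tope `T`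
with `dist B T = n + 1` choose (GEO) a wall `i` of `T` with `T i ≠ B i` and let `a' T` be a transport (TRE)
of `a (fl T i)` at the pair `fl T i`, `T = fl (fl T i) i`; `a' S = a S` for all other `S`. Check the pair
`S`, `fl S e`, both at distance `≤ n + 1`: if both are at distance `≤ n`: old. The distances differ by `1`
(`S e ≠ (fl S e) e`, all other coordinates equal). So exactly one of them, `T`, has distance `n + 1`, the
other is `fl T e` with `T e ≠ B e`. If `e` is the chosen `i`: by construction (`Comp` is symmetric: `Comp S e x y`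
iff `Comp (fl S e) e y x`). Otherwise take a transport `y'` of `a (fl T e)` (TRE); SAM: `y' = a' T` on the walls
of `T`, so `Comp` holds for `a' T` as well (only values on the walls of `T` matter, `e` is one of them). -/
def BAL : Prop := ∀ (E : Type) [Finite E] (L : Set (E → SignType))
  (F : (E → SignType) → Submodule ℝ (E → ℝ)), Good L → CD L F → HF L F →
    ∀ B, IsTope L B → ∀ (a0 : E → ℝ) (n : ℕ), ∃ a : (E → SignType) → E → ℝ,
      (∀ g, Wall L B g → a B g = a0 g) ∧
      ∀ S, IsTope L S → dist B S ≤ n → ∀ e, Wall L S e → dist B (fl S e) ≤ n →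
        Comp L F S e (a S) (a (fl S e))

/-- EWD (short-medium). The value at `e` does not depend on the tope with wall `e`. Proof: if
`S e ≠ R e` replace `R` by `fl R e` (`Comp` at `R`, `e`: `a R e = a (fl R e) e`). Then CHN with
`Q S' : a S' e = a S e`; step: two topes of the star of `Z` with wall `e`, `Z e = 0`: both values are `f e` for
the `f` of PHI. -/
def EWD : Prop := ∀ (E : Type) [Finite E] (L : Set (E → SignType))
  (F : (E → SignType) → Submodule ℝ (E → ℝ)), Good L → CD L F →
    ∀ a : (E → SignType) → E → ℝ,
      (∀ S, IsTope L S → ∀ e, Wall L S e → Comp L F S e (a S) (a (fl S e))) →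
      ∀ S R, IsTope L S → IsTope L R → ∀ e, Wall L S e → Wall L R e → a S e = a R e

/-- COR (short-medium). Core. Proof: BAL with `n = Nat.card E` (all distances are `≤ n`) gives a
globally compatible `a`. Every `e` is a wall of some tope (GAT with `X = 0`, or `exists_diff`); `f e = a T e` for
such a `T`; independent of `T` by EWD. `f = a0` on the walls of `B`. For `Z` of corank `2` PHI gives `f'` in
`F Z`; for `g` in `z(Z)` there is `T` in the star of `Z` with wall `g` (GAT), so `f g = a T g = f' g`;
`CD.loc`. -/
def COR : Prop := ∀ (E : Type) [Finite E] (L : Set (E → SignType))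
  (F : (E → SignType) → Submodule ℝ (E → ℝ)), Good L → CD L F → HF L F → Full L F

/-- SGN (medium). Sign lemma. Proof: claim: for every tope `T` and wall `i` of `T`: `0 < B i * f i`.
Strong induction on `dist B T`. `T = B`: hypothesis. `T ≠ B`: GEO gives a wall `i0` of `T` with
`T i0 ≠ B i0`. `i = i0`: `i0` is a wall of `fl T i0`, which is closer. `i ≠ i0`: XJW: `Z` of corank `2`,
`Le Z T`, `Z i = Z i0 = 0`; `G = cmp Z B` is a tope of the star of `Z`, `G g = B g` on `z(Z)`, and
`dist B G < dist B T` (`G` is `B` or `Z = T` everywhere, and at `i0` it is `B`). Let `p ≠ q` be the walls of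
`G` in `z(Z)`; by induction `0 < G p * f p`, `0 < G q * f q`; `CD.pos` for `G`: `0 < G i * f i = B i * f i`.
Every `e` is a wall of some tope (`exists_diff`). -/
def SGN : Prop := ∀ (E : Type) [Finite E] (L : Set (E → SignType))
  (F : (E → SignType) → Submodule ℝ (E → ℝ)), Good L → CD L F → ∀ f, Lin L F f → ∀ B, IsTope L B →
    (∀ i, Wall L B i → 0 < (B i : ℝ) * f i) → ∀ e, 0 < (B e : ℝ) * f e

/-- REA (medium). Realization. Proof: let `W` be the subspace of all `f` with `Lin L F f` (an
intersection of submodules), `d` its dimension, `β` a linear isomorphism from `EuclideanSpace ℝ (Fin d)` to `W`,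
and `v e` the vector with `inner (v e) x = (β x) e` (for example `v e = Σ i, (β (b i)) e • b i` for the standard
basis `b`). `arr v` is the set of the sign vectors of the `f` in `W`. By `recon_eq` (helper52) with
`arr_om` it is enough to compare the vectors without zeros (`IsSimple` gives the first loop condition;
for the second one: a tope of `L` is in `arr v`, see now). A tope `B` of `L`: `Full` with `a0 i = B i` gives `f` in
`W` with `B i * f i = 1` for the walls, so `sign f = B` by SGN. Conversely let `f` be in `W`, `f e ≠ 0` for all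
`e`; choose a tope `T` of `L` with the least number of `e` such that `T e ≠ sign (f e)`. If a wall `i` of
`T` has `T i ≠ sign (f i)`, then `fl T i` is a better tope. So `0 < T i * f i` for all walls, and
`sign f = T` by SGN. (`E` may be empty.) -/
def REA : Prop := ∀ (E : Type) [Finite E] (L : Set (E → SignType))
  (F : (E → SignType) → Submodule ℝ (E → ℝ)), Good L → CD L F → Full L F →
    ∃ (d : ℕ) (v : E → EuclideanSpace ℝ (Fin d)), L = arr v

/-- HHF (medium). `H3` gives `HF`. Proof: given `Z`, `T`, `a0`. Let `f0` be in `F Z` with the values of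
`a0` at the two walls `i`, `j` of `T` in `z(Z)`. For a tope `S` of the star of `Z` and a wall `k` of `S` with
`Z k ≠ 0` let `X = X(S,k)` be the covector of corank `3` with `Le X S` whose zeros on the walls of `S` are `k`
and the two walls of `S` in `z(Z)` (XJW, XUQ); `Le X Z` (BIJ). For every `X` of corank `3` with `Le X Z`
choose, by `H3` for `T` (`Le X T`), `f_X` which agrees with `a0` on the three walls of `T` in `z(X)` and is in
`F Z'` for all `Z' ≥ X` of corank `2`; `f_X = f0` on `z(Z)` (`CD.uniq`). Define `a S g = f0 g` if `Z g = 0`, and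
`a S k = f_X k` with `X = X(S,k)` if `k` is a wall of `S`, `Z k ≠ 0`. For `S = T` this is `a0`.
Compatibility at `S`, wall `e` with `Z e = 0`, `S' = fl S e`: first `a S e = f0 e = a S' e`. Let `Y` be of
corank `2`, `Le Y S`, `Y e = 0`, with walls `e`, `j'` of `S`. If `Z j' = 0` then `Y = Z` (XUQ) and `f0` does it.
If `Z j' ≠ 0`, let `X = X(S,j')`; then `Le X Y` (BIJ: the zeros of `Y` on the walls of `S` are `e`, `j'`), so
`f_X` is in `F Y`, and `a S` is `f_X` at `e` (`f0 = f_X` on `z(Z)`) and at `j'`. The walls of `S'` in `z(Y)` are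
`e` and one `j''`; `Z j'' ≠ 0` (otherwise `Z = Y` by XUQ for `S'`); and `X(S',j'') = X`: `Le X S'`, the
zeros of `X` on the walls of `S'` are three (corank 3), among them `j''` (`Le X Y`) and the two walls of `S'`
in `z(Z)` (`Le X Z`). So `a S' j'' = f_X j''`. -/
def HHF : Prop := ∀ (E : Type) [Finite E] (L : Set (E → SignType))
  (F : (E → SignType) → Submodule ℝ (E → ℝ)), Good L → CD L F → H3 L F → HF L F

/-- CDC (medium). The data `FC` for rank two flats with at most three elements. Proof. By SZZ `z(Z)` has
`2` or `3` elements. `loc`: clear. Two elements: no condition (three distinct zeros are needed), all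
claims are clear (all `g` in `z(Z)` are `i` or `j`). Three elements: let `T` be in the star with walls
`i`, `j`, third element `c`. `uniq`, `pos`: from the relation `T c * f c = T i * f i + T j * f j`
(`T c = 1` or `-1`). `ext`: put `f i = x`, `f j = y`, `f c = T c * (T i * x + T j * y)`, `0` elsewhere. `f` is in
`FC L Z`: STI with `Q S`: for all distinct `a`, `b`, `c` in `z(Z)` with `a`, `b` walls of `S` the relation
holds for `S`. Step from `S` (walls `a`, `b`, third `c`) to `S' = fl S a` (walls `a`, `c` by PAT, third `b`):
`S b * f b = -(S a * f a) + S c * f c`. In the same way for `fl S b`. -/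
def CDC : Prop := ∀ (E : Type) [Finite E] (L : Set (E → SignType)), Good L →
  (∀ a b, a ≠ b → {g | Cl2 L a b g}.ncard ≤ 3) → CD L (FC L)

end Pool.Agent.helper66.SL
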