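import Pool.Agent.helper66.SL.SpecA

/-!
# Simplicial oriented matroids (MP_ad2b66_co): rows of the blocks C (localization), U (local to global),
Z (zonotopes)

Paper proof: /team-store/MP_ad2b66_SL_helper66.md.
-/

set_option autoImplicit false

namespace Pool.Agent.helper66.SL

open Pool.Agent.helper52.FC

/-- The localization at `X`: the restriction to the zero set of `X`. -/
abbrev Loc {E : Type} (L : Set (E → SignType)) (X : E → SignType) : Set ({e : E // X e = 0} → SignType) :=
  restr L (fun e => X e = 0)

/-- Compatible vector realizations of the localizations at the flats of rank at most three. -/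
structure Local {E : Type} (L : Set (E → SignType)) (u : E → E → E → E → EuclideanSpace ℝ (Fin 3)) :
    Prop where
  real : ∀ a b c, restr L (fun g => Cl3 L a b c g) = arr (fun g : {g // Cl3 L a b c g} => u a b c g)
  compat : ∀ a b c a' b' c' d e, (∀ g, Cl2 L d e g → Cl3 L a b c g ∧ Cl3 L a' b' c' g) →
    ∃ A : EuclideanSpace ℝ (Fin 3) →ₗ[ℝ] EuclideanSpace ℝ (Fin 3),
      ∀ g, Cl2 L d e g → A (u a b c g) = u a' b' c' g

/-- The rank two data of a local system of realizations. -/
def FL {E : Type} (L : Set (E → SignType)) (u : E → E → E → E → EuclideanSpace ℝ (Fin 3))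
    (Z : E → SignType) : Submodule ℝ (E → ℝ) where
  carrier := {f | ∀ a b c, (∀ g, Z g = 0 → Cl3 L a b c g) →
    ∃ ψ : EuclideanSpace ℝ (Fin 3) →ₗ[ℝ] ℝ, ∀ g, Z g = 0 → f g = ψ (u a b c g)}
  add_mem' := by
    intro f f' h h' a b c hg
    obtain ⟨ψ, hψ⟩ := h a b c hg
    obtain ⟨ψ', hψ'⟩ := h' a b c hg
    exact ⟨ψ + ψ', fun g h0 => by simp [hψ g h0, hψ' g h0]⟩
  zero_mem' := by
    intro a b c hg
    exact ⟨0, fun g h0 => by simp⟩
  smul_mem' := by
    intro r f h a b c hg
    obtain ⟨ψ, hψ⟩ := h a b c hg
    exact ⟨r • ψ, fun g h0 => by simp [hψ g h0]⟩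

/-! ## Block C: localization -/

/-- LTP (short). Topes of the localization. Proof: if `T'` is a tope of `Loc L X`, it has no zero
(`max_supp`; `IsSimple.loop`), `T' = Y` on `z(X)` for some `Y` in `L`, and `T = cmp X Y` has no zero, so it
is a tope. Conversely the restriction of a tope is in `Loc L X` and has no zero (`tope_of`). -/
def LTP : Prop := ∀ (E : Type) [Finite E] (L : Set (E → SignType)), IsOM L → IsSimple L → ∀ X ∈ L,
  ∀ T' : {e : E // X e = 0} → SignType, IsTope (Loc L X) T' ↔
    ∃ T, IsTope L T ∧ Le X T ∧ ∀ e, T' e = T e.1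

/-- LWL (short). Walls in the localization. Proof: `fl (T restricted) e` is the restriction of
`fl T e`, and topes of the star of `X` with the same restriction are equal (off `z(X)` they are `X`);
use LTP. -/
def LWL : Prop := ∀ (E : Type) [Finite E] (L : Set (E → SignType)), IsOM L → IsSimple L → ∀ X ∈ L,
  ∀ T, IsTope L T → Le X T → ∀ e : {e : E // X e = 0},
    (Wall (Loc L X) (fun g : {e : E // X e = 0} => T g.1) e ↔ Wall L T e.1)

/-- LCK (short-medium). Coranks in the localization. Proof: `Le X Z`. The topes above the restriction of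
`Z` are the restrictions of the topes `T` of `L` with `Le Z T` (LTP; off `z(X)` `Z = X = T`). Walls: LWL; a
zero of `Z` is a zero of `X`. So the two sets of walls correspond (`Set.ncard` under the injection
`Subtype.val`). -/
def LCK : Prop := ∀ (E : Type) [Finite E] (L : Set (E → SignType)), IsOM L → IsSimple L → ∀ X ∈ L,
  ∀ Z ∈ L, Le X Z → ∀ k, (Cork (Loc L X) (fun g : {e : E // X e = 0} => Z g.1) k ↔ Cork L Z k)

/-- LGD (medium). The localization is simple and simplicial. Proof: `restr_om`. `IsSimple`: restrict
the covectors given by the simplicity of `L`. Simplicial: let `T'` be a tope of `Loc L X`, `T` as in LTP,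
`J` the set of the walls of `T` in `z(X)`. Map `Y'` in `Loc L X`, `Le Y' T'`, to `{e in J | Y' e ≠ 0}`.
It is a bijection onto the subsets of `J` which preserves and reflects the order: `Y'` is the restriction of
a unique `Y` in `L` with `Le X Y`, `Le Y T` (`Y = X o Y0`), and BIJ for `T` describes these `Y` by their
zeros on the walls of `T`: these are exactly the subsets of `J` (`Le X Y` iff the zeros of `Y` on walls are
zeros of `X`). Identify `J` with `Fin n`. -/
def LGD : Prop := ∀ (E : Type) [Finite E] (L : Set (E → SignType)), Good L → ∀ X ∈ L, Good (Loc L X)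

/-- LCL (short). Flats of the localization: `Cl2 (Loc L X) a b g` implies `Cl2 L a b g` (restrict the
covector), so there are at most as many `g`. -/
def LCL : Prop := ∀ (E : Type) [Finite E] (L : Set (E → SignType)), ∀ X ∈ L,
  ∀ a b : {e : E // X e = 0}, {g | Cl2 (Loc L X) a b g}.ncard ≤ {g | Cl2 L a.1 b.1 g}.ncard

/-- LFC (short). The data `FC` in the localization: for a tope `T` of `L` with `Le Z T` the restriction of
`T` is a tope above the restriction of `Z` with the corresponding walls (LTP, LWL), and the zeros of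
`Z` are zeros of `X`. -/
def LFC : Prop := ∀ (E : Type) [Finite E] (L : Set (E → SignType)), IsOM L → IsSimple L → ∀ X ∈ L,
  ∀ Z ∈ L, Le X Z → ∀ (f' : {e : E // X e = 0} → ℝ) (f : E → ℝ), (∀ e, f e.1 = f' e) →
    f' ∈ FC (Loc L X) (fun g : {e : E // X e = 0} => Z g.1) → f ∈ FC L Z

/-- LH3 (short-medium). From rank three to `H3`. Proof: `X` of corank `3`, `M = Loc L X` satisfies `R3 M`
(LGD; LCK for `Z = X`, whose restriction is `0`; LCL). `T` restricted is a tope of `M`; `Full M` gives
`f'` with the values `a0`; extend by `0` to `f`. For `Z` of corank `2` with `Le X Z`: LCK, LFC. -/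
def LH3 : Prop := (∀ (E : Type) [Finite E] (M : Set (E → SignType)), R3 M → Full M (FC M)) →
  ∀ (E : Type) [Finite E] (L : Set (E → SignType)), Good L →
    (∀ a b, a ≠ b → {g | Cl2 L a b g}.ncard ≤ 3) → H3 L (FC L)

/-! ## Block U: local to global -/

/-- UZC (short). Zero sets as flats: CLO, and `Z` is itself a covector vanishing on the walls. -/
def UZC : Prop := ∀ (E : Type) [Finite E] (L : Set (E → SignType)), Good L →
  (∀ Z, Cork L Z 2 → ∀ T, IsTope L T → Le Z T → ∀ i j, i ≠ j → Wall L T i → Wall L T j → Z i = 0 →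
    Z j = 0 → ∀ g, (Z g = 0 ↔ Cl2 L i j g)) ∧
  (∀ X, Cork L X 3 → ∀ T, IsTope L T → Le X T → ∀ i j k, i ≠ j → i ≠ k → j ≠ k → Wall L T i →
    Wall L T j → Wall L T k → X i = 0 → X j = 0 → X k = 0 → ∀ g, (X g = 0 ↔ Cl3 L i j k g))

/-- UEX (short-medium). Functionals with given values on walls. Proof: let `J` be a set of walls of
`T` inside the flat. For `i` in `J`, BIJ gives `Y` in `L`, `Le Y T`, which vanishes on `J \ {i}` and is
nonzero at `i`; by `Local.real` its restriction is the sign vector of some `x_i`: `inner (u g) x_i = 0`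
for `g` in `J \ {i}`, and `≠ 0` for `g = i`. `ψ = Σ_{i in J} (a0 i / inner (u i) x_i) inner (.) x_i`. -/
def UEX : Prop := ∀ (E : Type) [Finite E] (L : Set (E → SignType))
  (u : E → E → E → E → EuclideanSpace ℝ (Fin 3)), Good L → Local L u → ∀ a b c T, IsTope L T →
    ∀ J : Set E, (∀ g ∈ J, Wall L T g ∧ Cl3 L a b c g) → ∀ a0 : E → ℝ,
      ∃ ψ : EuclideanSpace ℝ (Fin 3) →ₗ[ℝ] ℝ, ∀ g ∈ J, ψ (u a b c g) = a0 g

/-- UCD (medium). The data `FL`. Proof. `loc`: clear. Let `i ≠ j` be walls of `T` in `z(Z)`;
`z(Z)` is the flat of `i`, `j` (UZC), inside the flat of `(i, j, j)`. `ext`: UEX for `(i, j, j)`,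
`J = {i, j}`: `ψ`; `f g = ψ (u i j j g)`; for another triple `a, b, c` whose flat contains `z(Z)`,
`compat` (with `d, e = i, j`) gives `A` with `A (u a b c g) = u i j j g` on `z(Z)`, so `f = (ψ o A) o u a b c`.
`uniq`: `f g = ψ (u i j j g)` on `z(Z)`, `ψ = inner (.) x` for some `x`; the sign vector of `x` is the
restriction of a `Y` in `L` (`real`), `Y i = Y j = 0`, so `Y = 0` on `z(Z)` by CLO, so `f = 0` there. `pos`: as
before with `Y i = T i`, `Y j = T j`. The tope `Z o (Y o T)` is in the star of `Z` and agrees with `T` at the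
walls `i`, `j` of `T` in `z(Z)`, so it is `T` (GEO) and `Y g` is `0` or `T g` on `z(Z)`. This holds for every
`x` with these signs at `i`, `j`. If `Y g = 0` for a `g` in `z(Z)`, let `x_T` realize `T` on the flat and
take `x - ε x_T`, `ε > 0` small: the signs at `i`, `j` are the same and the sign at `g` is
`-T g`: contradiction. -/
def UCD : Prop := ∀ (E : Type) [Finite E] (L : Set (E → SignType))
  (u : E → E → E → E → EuclideanSpace ℝ (Fin 3)), Good L → Local L u → CD L (FL L u)

/-- UH3 (short-medium). `H3` for a local system. Proof: `X` of corank `3`, `T` above `X`, `i`, `j`, `k` the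
walls of `T` in `z(X)` (`Set.ncard_eq_three`), `z(X)` is the flat of `i, j, k` (UZC). UEX gives `ψ` with
`ψ (u i j k g) = a0 g` for `g = i, j, k`; `f g = ψ (u i j k g)`. Let `Z` be of corank `2`, `Le X Z`; a tope
above `Z` has two walls `p ≠ q` in `z(Z)`, and `z(Z)` is the flat of `p, q`, inside `z(X)`. If `z(Z)` is
inside the flat of `a, b, c`, `compat` gives `A` with `A (u a b c g) = u i j k g` on `z(Z)`; so
`f g = (ψ o A) (u a b c g)`. -/
def UH3 : Prop := ∀ (E : Type) [Finite E] (L : Set (E → SignType))
  (u : E → E → E → E → EuclideanSpace ℝ (Fin 3)), Good L → Local L u → H3 L (FL L u)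

/-- ULC (medium). A realization gives a local system. Proof: let `S` be the span of `v a, v b, v c`. If `g`
is in the flat of `a, b, c` then `v g` is in `S`: otherwise `x = v g - P_S (v g)` is orthogonal to
`v a, v b, v c` and `inner (v g) x = |x|^2 ≠ 0`, so its sign vector contradicts `Cl3`. `dim S ≤ 3`: let
`ι : S → ℝ^3` be a linear isometry, `ι'` its adjoint (`ι' ι = id`), `u a b c g = ι (P_S (v g))`.
`real`: for `x` in `ℝ^d` and `g` in the flat `inner (v g) x = inner (v g) (P_S x) = inner (ι (v g)) (ι (P_S x))`; for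
`y` in `ℝ^3` `inner (ι (v g)) y = inner (v g) (ι' y)`. `compat`: with `S`, `ι` for `(a, b, c)` and `S2`, `ι2` for
`(a', b', c')`, `A y = ι2 (P_{S2} (ι' y))`: for `g` in both flats `A (ι (v g)) = ι2 (P_{S2} (v g))`. -/
def ULC : Prop := ∀ (E : Type) [Finite E] (d : ℕ) (v : E → EuclideanSpace ℝ (Fin d)),
  ∃ u : E → E → E → E → EuclideanSpace ℝ (Fin 3), Local (arr v) u

/-! ## Block Z: zonotopes -/

/-- ZO1 (short-medium). Vertices. Proof: write `p T = Σ e, (T e) • v e`. For a tope `T` take `x` with
`sign (inner (v e) x) = T e`. For a tope `R`: `inner (p R) x = Σ (R e) inner (v e) x ≤ Σ |inner (v e) x|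
= inner (p T) x`, with equality only for `R = T`. So `p` is injective on topes and `p T` is an exposed,
hence extreme point of the convex hull; the extreme points of the convex hull of a set lie in the
set (`extremePoints_convexHull_subset`). -/
def ZO1 : Prop := ∀ (E : Type) [Fintype E] (L : Set (E → SignType)) (d : ℕ)
  (v : E → EuclideanSpace ℝ (Fin d)), IsSimple L → L = arr v →
    (Zon L v).extremePoints ℝ =
      Set.range (fun T : {T : E → SignType // IsTope L T} => ∑ e, (T.1 e : ℝ) • v e) ∧
    Function.Injective (fun T : {T : E → SignType // IsTope L T} => ∑ e, (T.1 e : ℝ) • v e)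

/-- ZO2 (medium). Edges. Proof: `p` as in ZO1. If `S`, `T` differ exactly in `e`, then `e` is a wall of
`S`, `fz S e` is in `L` (WFZ, `arr_om`), so it is the sign vector of some `x`, and for a tope `R`:
`inner (p R) x ≤ Σ |inner (v g) x|` with equality iff `R g = S g` for all `g ≠ e`, that is `R = S` or
`R = T`. So the functional `inner x` exposes the convex hull of `p S`, `p T`, the segment (a maximizer in
the convex hull is a convex combination of maximizing points). Conversely let the segment be exposed
by a functional `inner x`, `X` the sign vector of `x`. For a tope `R`: `inner (p R) x ≤ Σ |inner (v g) x|`,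
equality iff `Le X R`; the value is attained (`cmp X S`). So the topes `R` with `Le X R` are those with
`p R` in the segment; `p R` is an extreme point of the polytope (ZO1), so it is an end point:
`R = S` or `R = T`; and `Le X S`, `Le X T`. GEO: a wall `e` of `S` with `S e ≠ T e`, so `X e = 0` and
`fl S e` is a tope above `X`, not `S`, so it is `T`. (`IsExposed` for a nonempty set: there is a
continuous linear functional `l` with `B = {x in A | ∀ y in A, l y ≤ l x}`.) -/
def ZO2 : Prop := ∀ (E : Type) [Fintype E] (L : Set (E → SignType)) (d : ℕ)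
  (v : E → EuclideanSpace ℝ (Fin d)), IsSimple L → L = arr v →
    ∀ S T : {T : E → SignType // IsTope L T}, S ≠ T →
      (IsExposed ℝ (Zon L v) (segment ℝ (∑ e, (S.1 e : ℝ) • v e) (∑ e, (T.1 e : ℝ) • v e)) ↔
        ∃ e, DiffAt e S.1 T.1)

/-- ZO3 (short). The graph isomorphism: the bijection of ZO1, adjacency by ZO2. -/
def ZO3 : Prop := ∀ (E : Type) [Fintype E] (L : Set (E → SignType)) (d : ℕ)
  (v : E → EuclideanSpace ℝ (Fin d)), IsSimple L → L = arr v →
    Nonempty (topeGraph L ≃g skeleton (Zon L v))

end Pool.Agent.helper66.SL
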