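import Pool.Agent.helper66.SL.SpecA
import Pool.Agent.helper52.FC.Poly

/-!
# Simplicial oriented matroids (MP_ad2b66_co): rows of block K (a polytope with the graph of a
simplicial oriented matroid and the right dimension has its face lattice)

THEOREM K. Let `L` be a simple simplicial oriented matroid, `P` a full dimensional polytope in `ℝ^r`, `φ` an
isomorphism from the tope graph of `L` to the 1-skeleton of `P`, and let every tope have exactly `r` walls
(that is, `r` is the rank). Then `X -> conv {φ T | T ≥ X}` is an order reversing bijection from the covectors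
of `L` to the nonempty faces of `P`.

Proof (after Blind - Mani and Kalai). `P` is simple. For an orientation `O` of the graph let `Σ(O)` be the sum
of `2^outdeg` over the vertices. (a) For a generic linear functional `Σ(O_l)` is the number of faces of
`P`; for every acyclic orientation it is at least the number of covectors. (b) For the orientation away
from a tope `B` it is the number of covectors; and it is the sum over the faces `F` of `P` of the number of
sources of `F`. So both numbers are equal and every face has a unique source for (b). (c) For a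
covector `X` take `B` with `B = -X` off `z(X)`: then `star(X)` is closed under forward steps, its
source determines a face `F` of `P`, all vertices of `F` are reached from its unique source, so they lie in
`star(X)`; by regularity and connectedness they are all of `star(X)`. Counting gives the bijection.

A face is a nonempty exposed subset: `IsExposed ℝ P F`, `F.Nonempty`.
-/

set_option autoImplicit false

namespace Pool.Agent.helper66.SL

open Pool.Agent.helper52.FC

open Classical in
/-- The point of a tope. -/
noncomputable def vp {E : Type} {L : Set (E → SignType)} {r : ℕ} {P : Set (EuclideanSpace ℝ (Fin r))}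
    (φ : topeGraph L ≃g skeleton P) (T : E → SignType) : EuclideanSpace ℝ (Fin r) :=
  if h : IsTope L T then (φ ⟨T, h⟩).1 else 0

/-- The situation of Theorem K. -/
structure KS {E : Type} (L : Set (E → SignType)) (r : ℕ) (P : Set (EuclideanSpace ℝ (Fin r))) : Prop where
  good : Good L
  pol : ∃ s : Finset (EuclideanSpace ℝ (Fin r)), P = convexHull ℝ (s : Set _)
  int : (interior P).Nonempty
  reg : ∀ T, IsTope L T → {e | Wall L T e}.ncard = r

/-- The nonempty faces. -/
def Fc {r : ℕ} (P : Set (EuclideanSpace ℝ (Fin r))) : Set (Set (EuclideanSpace ℝ (Fin r))) :=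
  {F | IsExposed ℝ P F ∧ F.Nonempty}

/-- The number of walls of `T` which are crossed upwards for `h`. -/
noncomputable def upw {E : Type} (L : Set (E → SignType)) (h : (E → SignType) → ℝ) (T : E → SignType) : ℕ :=
  {e | Wall L T e ∧ h T < h (fl T e)}.ncard

/-- The number of walls of `T` which do not separate `T` from `B`. -/
noncomputable def aw {E : Type} (L : Set (E → SignType)) (B T : E → SignType) : ℕ :=
  {e | Wall L T e ∧ T e = B e}.ncard

/-- The number of the pairs of a tope and a subset of a set depending on the tope. -/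
theorem pairs_ncard {E : Type} [Finite E] (L : Set (E → SignType)) (A : (E → SignType) → Set E) :
    {q : (E → SignType) × Set E | IsTope L q.1 ∧ q.2 ⊆ A q.1}.ncard =
      ∑ᶠ T : {T : E → SignType // IsTope L T}, 2 ^ (A T.1).ncard := by
  classical
  have := Fintype.ofFinite {T : E → SignType // IsTope L T}
  rw [finsum_eq_sum_of_fintype]
  let e : {q : (E → SignType) × Set E | IsTope L q.1 ∧ q.2 ⊆ A q.1} ≃
      Σ T : {T : E → SignType // IsTope L T}, {J : Set E // J ⊆ A T.1} :=
    { toFun := fun q => ⟨⟨q.1.1, q.2.1⟩, ⟨q.1.2, q.2.2⟩⟩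
      invFun := fun s => ⟨(s.1.1, s.2.1), s.1.2, s.2.2⟩
      left_inv := fun q => rfl
      right_inv := fun s => rfl }
  rw [← Nat.card_coe_set_eq, Nat.card_congr e, Nat.card_sigma]
  refine Finset.sum_congr rfl fun T _ => ?_
  have h1 := Set.ncard_powerset (A T.1) (Set.toFinite _)
  rw [← h1, ← Nat.card_coe_set_eq]
  rfl

/-- KTC (medium). Tangent cone. Proof: the neighbours of `T` in the tope graph are the `fl T e`, `e` a wall
(`DiffAt e T S` iff `S = fl T e` for topes; both values at `e` are nonzero). If `x - vp T` is not in the cone of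
the `vp (fl T e) - vp T`, Farkas (helper52/FC/Farkas.lean, `farkas` on the space of linear functionals,
or a closed cone separation) gives a linear `g` with `g (vp (fl T e) - vp T) ≥ 0` for all walls
and `g (x - vp T) < 0`. `P` is the convex hull of the `vp S` (`hull` in helper52/FC/Poly.lean), so some
tope `S` has `g (vp S - vp T) < 0`. `improve` (helper52/FC/Conf.lean) for `p = pv φ`, `c = 0`, the
functional `(y, t) -> g y - t * g (vp T)` gives a `k` with `Ed (pv φ) i k` and a negative value at
`k`; `adj_of_ed`: `k` is a neighbour of `T`: contradiction. -/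
def KTC : Prop := ∀ (E : Type) [Fintype E] (L : Set (E → SignType)) (r : ℕ)
  (P : Set (EuclideanSpace ℝ (Fin r))) (φ : topeGraph L ≃g skeleton P), KS L r P →
  ∀ T, IsTope L T → ∀ x ∈ P, ∃ c : E → ℝ, (∀ e, 0 ≤ c e) ∧ (∀ e, ¬ Wall L T e → c e = 0) ∧
    x - vp φ T = ∑ e, c e • (vp φ (fl T e) - vp φ T)

/-- KIN (medium). The edge directions form a basis. Proof: the vectors `x - vp T`, `x` in `P`, span the
space (interior nonempty), so by KTC the `r` directions `vp (fl T e) - vp T`, `e` a wall, span it and
form a basis. So there is a linear functional with arbitrary values on them. -/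
def KIN : Prop := ∀ (E : Type) [Fintype E] (L : Set (E → SignType)) (r : ℕ)
  (P : Set (EuclideanSpace ℝ (Fin r))) (φ : topeGraph L ≃g skeleton P), KS L r P →
  ∀ T, IsTope L T → ∀ a : E → ℝ, ∃ l : EuclideanSpace ℝ (Fin r) →ₗ[ℝ] ℝ,
    ∀ e, Wall L T e → l (vp φ (fl T e) - vp φ T) = a e

/-- KF1 (short-medium). Every set of edges at a vertex spans a face. Proof: `l` from KIN with the values
`0` on `K` and `-1` on the other walls; by KTC `l x ≤ l (vp T)` on `P`; `F` = the set of the maximizers.
(Linear functionals on `EuclideanSpace` are continuous: `LinearMap.toContinuousLinearMap`.) -/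
def KF1 : Prop := ∀ (E : Type) [Fintype E] (L : Set (E → SignType)) (r : ℕ)
  (P : Set (EuclideanSpace ℝ (Fin r))) (φ : topeGraph L ≃g skeleton P), KS L r P →
  ∀ T, IsTope L T → ∀ K : Set E, (∀ e ∈ K, Wall L T e) →
    ∃ F ∈ Fc P, vp φ T ∈ F ∧ ∀ e, Wall L T e → (vp φ (fl T e) ∈ F ↔ e ∈ K)

/-- KF2 (short-medium). Faces at a vertex are determined by their edges. Proof: let `l`, `l'` expose `F`,
`F'`. For a wall `e`, `d_e = vp (fl T e) - vp T`: `l d_e ≤ 0`, with equality iff `vp (fl T e)` is in `F`. For `x` in
`F` write `x - vp T = Σ c_e d_e` (KTC): `0 = Σ c_e l d_e`, so `c_e = 0` unless `vp (fl T e)` is in `F`,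
hence in `F'`; so `l' (x - vp T) = 0` and `x` is in `F'`. -/
def KF2 : Prop := ∀ (E : Type) [Fintype E] (L : Set (E → SignType)) (r : ℕ)
  (P : Set (EuclideanSpace ℝ (Fin r))) (φ : topeGraph L ≃g skeleton P), KS L r P →
  ∀ T, IsTope L T → ∀ F ∈ Fc P, ∀ F' ∈ Fc P, vp φ T ∈ F → vp φ T ∈ F' →
    (∀ e, Wall L T e → vp φ (fl T e) ∈ F → vp φ (fl T e) ∈ F') → F ⊆ F'

/-- KF3 (short-medium). A face is the convex hull of its vertices, has one, and `vp` is injective on topes.
Proof: `P` is the convex hull of the `vp S`; a point of `F` is a convex combination of such points,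
and those with positive coefficient maximize the exposing functional as well. Injectivity: `φ` is a
bijection. -/
def KF3 : Prop := ∀ (E : Type) [Fintype E] (L : Set (E → SignType)) (r : ℕ)
  (P : Set (EuclideanSpace ℝ (Fin r))) (φ : topeGraph L ≃g skeleton P), KS L r P →
  (∀ S T, IsTope L S → IsTope L T → vp φ S = vp φ T → S = T) ∧
  ∀ F ∈ Fc P, (∃ T, IsTope L T ∧ vp φ T ∈ F) ∧
    F = convexHull ℝ {x | ∃ T, IsTope L T ∧ vp φ T ∈ F ∧ x = vp φ T}

/-- KF4 (medium). Regularity. Proof: `D` = the span of the `x - y`, `x`, `y` in `F`. For a vertex `vp T` of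
`F` the `d_e`, `e` a wall with `vp (fl T e)` in `F`, are linearly independent (KIN) elements of `D`; they
span `D`: for `x` in `F` `x - vp T` is a combination of them (proof of KF2). So their number is
`dim D`. -/
def KF4 : Prop := ∀ (E : Type) [Fintype E] (L : Set (E → SignType)) (r : ℕ)
  (P : Set (EuclideanSpace ℝ (Fin r))) (φ : topeGraph L ≃g skeleton P), KS L r P →
  ∀ F ∈ Fc P, ∀ T T', IsTope L T → IsTope L T' → vp φ T ∈ F → vp φ T' ∈ F →
    {e | Wall L T e ∧ vp φ (fl T e) ∈ F}.ncard = {e | Wall L T' e ∧ vp φ (fl T' e) ∈ F}.ncard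

/-- KGN (short-medium). Generic functional: finitely many nonzero vectors `vp S - vp T` (KF3); a linear
functional which is nonzero on all of them exists (a vector space over `ℝ` is not a finite union of
proper subspaces). -/
def KGN : Prop := ∀ (E : Type) [Fintype E] (L : Set (E → SignType)) (r : ℕ)
  (P : Set (EuclideanSpace ℝ (Fin r))) (φ : topeGraph L ≃g skeleton P), KS L r P →
  ∃ l : EuclideanSpace ℝ (Fin r) →ₗ[ℝ] ℝ, ∀ S T, IsTope L S → IsTope L T →
    l (vp φ S) = l (vp φ T) → S = T

/-- KCP (medium). The number of faces. Use `pairs_ncard` above. Proof: for a face `F` let `T_F` be the tope with `vp T_F` in `F` and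
least `l` (unique), `K_F` the walls `e` of `T_F` with `vp (fl T_F e)` in `F`; `l (vp T_F) < l (vp (fl T_F e))` for
them. `F -> (T_F, K_F)` is injective (KF2). Surjective onto the pairs `(T, K)`, `K` a subset of the upward walls
of `T`: take `F` from KF1; every `x` in `F` is `vp T + Σ_{e in K} c_e d_e` with `c_e ≥ 0` (KTC and the
functional exposing `F`), so `l x > l (vp T)` or `x = vp T`, and `T_F = T`. -/
def KCP : Prop := ∀ (E : Type) [Fintype E] (L : Set (E → SignType)) (r : ℕ)
  (P : Set (EuclideanSpace ℝ (Fin r))) (φ : topeGraph L ≃g skeleton P), KS L r P →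
  ∀ l : EuclideanSpace ℝ (Fin r) →ₗ[ℝ] ℝ, (∀ S T, IsTope L S → IsTope L T →
    l (vp φ S) = l (vp φ T) → S = T) → (Fc P).Finite ∧
    (Fc P).ncard = ∑ᶠ T : {T : E → SignType // IsTope L T}, 2 ^ upw L (fun S => l (vp φ S)) T.1

/-- KCL (medium). The number of covectors. Use `pairs_ncard`. Proof: fix `B`. For `X` in `L` put `X' = cmp X B`, a tope, and
`J(X)` = the walls `e` of `X'` with `X e = 0` (then `X' e = B e`). `X -> (X', J(X))` is a bijection from `L`
to the pairs `(T, J)`, `T` a tope, `J` a set of walls `e` of `T` with `T e = B e`: injective by XUQ; surjective: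
`X` from XJW; `T` and `cmp X B` are in the star of `X`; if they differ, GEO gives a wall `e` of `T` with
`T e ≠ (cmp X B) e`, so `X e = 0`, `e` in `J`, `T e = B e = (cmp X B) e`: contradiction. -/
def KCL : Prop := ∀ (E : Type) [Fintype E] (L : Set (E → SignType)), Good L → ∀ B, IsTope L B →
  L.ncard = ∑ᶠ T : {T : E → SignType // IsTope L T}, 2 ^ aw L B T.1

/-- KLL (medium). Lower bound for every height function. Use `pairs_ncard`. Proof: for `X` in `L` let `T_X` be the tope of the
star of `X` with the least `h`, `J_X` the walls `e` of `T_X` with `X e = 0`: `fl T_X e` is in the star, so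
`h T_X < h (fl T_X e)`. `X -> (T_X, J_X)` is injective by XUQ. -/
def KLL : Prop := ∀ (E : Type) [Fintype E] (L : Set (E → SignType)), Good L →
  ∀ h : (E → SignType) → ℝ, (∀ S T, IsTope L S → IsTope L T → h S = h T → S = T) →
    L.ncard ≤ ∑ᶠ T : {T : E → SignType // IsTope L T}, 2 ^ upw L h T.1

/-- KSR (medium). Unique sources. `B` a tope. Call `T` a source of a face `F` if `vp T` is in `F` and
`T e = B e` for all walls `e` of `T` with `vp (fl T e)` in `F`. Proof: the pairs (face `F`, source `T` of `F`)
correspond to the pairs `(T, K)`, `K` a set of walls `e` of `T` with `T e = B e` (`K` = the walls `e` of `T` with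
`vp (fl T e)` in `F`; KF1, KF2), so their number is `|L|` (KCL). Every face has a source: the tope
`T` with `vp T` in `F` nearest to `B` (if `T e ≠ B e` then `fl T e` is nearer). `|L| ≤ |faces|` by KLL with
`h = l o vp`, `l` from KGN, and KCP. So every face has exactly one source and `|L| = |faces|`. -/
def KSR : Prop := ∀ (E : Type) [Fintype E] (L : Set (E → SignType)) (r : ℕ)
  (P : Set (EuclideanSpace ℝ (Fin r))) (φ : topeGraph L ≃g skeleton P), KS L r P →
  (Fc P).Finite ∧ (Fc P).ncard = L.ncard ∧ ∀ B, IsTope L B → ∀ F ∈ Fc P, ∀ T T', IsTope L T →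
    IsTope L T' → vp φ T ∈ F → vp φ T' ∈ F →
    (∀ e, Wall L T e → vp φ (fl T e) ∈ F → T e = B e) →
    (∀ e, Wall L T' e → vp φ (fl T' e) ∈ F → T' e = B e) → T = T'

/-- KST (medium). Stars are faces. Proof: let `T0` be a tope, `B = cmp (-X) T0` (so `B = -X` off `z(X)`),
`T* = cmp X B`, a tope of the star with `T* = B` on `z(X)`, `K` the set of the walls of `T*` in `z(X)`, `F` the face
of KF1 for `(T*, K)`; `T*` is a source of `F` (see KSR), the only one. Claim: if `vp T` is in `F` then
`Le X T`. Induction on `dist B T`: if `T ≠ T*`, `T` is not a source: there is a wall `e` of `T` with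
`vp (fl T e)` in `F` and `T e ≠ B e`; `fl T e` is nearer to `B`, so `Le X (fl T e)`; if `X e ≠ 0` then
`(fl T e) e = X e`, so `T e = -X e = B e`, contradiction; so `X e = 0` and `Le X T`. Conversely STI with
`Q S : vp S ∈ F`: let `S` be in the star, `vp S` in `F`. The walls `e` of `S` with `vp (fl S e)` in `F` are in
`z(X)` (claim for `fl S e` and `Le X S`), their number is `|K|` (KF4 for `T*`, `S`), and `|K|` is the
number of all walls of `S` in `z(X)` (CRK). So `vp (fl S e)` is in `F` for all walls `e` of `S` in `z(X)`. -/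
def KST : Prop := ∀ (E : Type) [Fintype E] (L : Set (E → SignType)) (r : ℕ)
  (P : Set (EuclideanSpace ℝ (Fin r))) (φ : topeGraph L ≃g skeleton P), KS L r P →
  ∀ X ∈ L, ∃ F ∈ Fc P, ∀ T, IsTope L T → (vp φ T ∈ F ↔ Le X T)

/-- KFI (medium). Assembly. Proof: for `X` in `L` let `F(X)` be the face of KST; by KF3 it is the convex hull
in the statement. `X -> F(X)` is injective: `X g = 0` iff two topes `T` above `X` differ at `g` (`cmp X T0` and
`cmp X (-T0)`), otherwise `X g = T g`; and `F(X) ⊆ F(Y)` iff every tope above `X` is above `Y`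
iff `Le Y X` (if `Y g ≠ 0` then all topes above `X` have the value `Y g` at `g`, so `X g = Y g`). As
`|Fc P| = |L|` (KSR) it is a bijection. -/
def KFI : Prop := ∀ (E : Type) [Fintype E] (L : Set (E → SignType)) (r : ℕ)
  (P : Set (EuclideanSpace ℝ (Fin r))) (φ : topeGraph L ≃g skeleton P), KS L r P →
  (∀ X ∈ L, convexHull ℝ {x | ∃ T, IsTope L T ∧ Le X T ∧ x = vp φ T} ∈ Fc P) ∧
  (∀ F ∈ Fc P, ∃ X ∈ L, F = convexHull ℝ {x | ∃ T, IsTope L T ∧ Le X T ∧ x = vp φ T}) ∧
  ∀ X ∈ L, ∀ Y ∈ L, (convexHull ℝ {x | ∃ T, IsTope L T ∧ Le X T ∧ x = vp φ T} ⊆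
    convexHull ℝ {x | ∃ T, IsTope L T ∧ Le Y T ∧ x = vp φ T} ↔ Le Y X)

end Pool.Agent.helper66.SL
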